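import Pool.Agent.Helper68.UL.Arith
import Pool.Agent.Helper17.UL.PhiSDef
import Pool.Agent.Helper17.UL.Defs3

set_option autoImplicit false

/-!
# Functions computable on a domain
-/

namespace Pool.Agent.Helper17.UL

open Pool.Agent.Helper6 Pool.Agent.Helper17.SL

variable {β U V : Type} {D D' : List β → (V → ℕ) → Prop} {f g : List β → (V → ℕ) → ℕ}
  {R R' : List β → (V → ℕ) → Prop}

/-- Relations decidable on a domain. -/
def IsLon (β V : Type) (D : List β → (V → ℕ) → Prop) (R : List β → (V → ℕ) → Prop) : Prop :=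
  ∃ S, IsL β V S ∧ ∀ w x, (∀ v, x v ≤ w.length + 1) → D w x → (S w x ↔ R w x)

theorem FLon.of (hf : FL β V f) : FLon β V D f := ⟨f, hf, fun _ _ _ _ => rfl⟩

theorem FLon.congr (hf : FLon β V D f)
    (h : ∀ w x, (∀ v, x v ≤ w.length + 1) → D w x → g w x = f w x) : FLon β V D g := by
  obtain ⟨f', hf', h'⟩ := hf
  exact ⟨f', hf', fun w x hx hD => (h' w x hx hD).trans (h w x hx hD).symm⟩

theorem FLon.mono (hf : FLon β V D f) (h : ∀ w x, D' w x → D w x) : FLon β V D' f := by
  obtain ⟨f', hf', h'⟩ := hf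
  exact ⟨f', hf', fun w x hx hD => h' w x hx (h w x hD)⟩

theorem FLon.bd (hf : FLon β V D f) (w : List β) (x : V → ℕ) (hx : ∀ v, x v ≤ w.length + 1)
    (hD : D w x) : f w x ≤ w.length + 1 := by
  obtain ⟨f', hf', h'⟩ := hf
  rw [← h' w x hx hD]
  exact hf'.bd w x hx

theorem FLon.proj (v : V) : FLon β V D (fun _ x => x v) := FLon.of (FL.proj v)

theorem FLon.const (c : ℕ) (h : ∀ w x, D w x → c ≤ w.length + 1) :
    FLon β V D (fun _ _ => c) :=
  (FLon.of (FL.const c)).congr fun w x _ hD => (min_eq_left (h w x hD)).symm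

theorem FLon.zero : FLon β V D (fun _ _ => 0) := FLon.const 0 fun _ _ _ => Nat.zero_le _

theorem FLon.one : FLon β V D (fun _ _ => 1) := FLon.const 1 fun _ _ _ => Nat.le_add_left _ _

theorem FLon.total (h : FLon β V D f) :
    ∃ f', FL β V f' ∧ ∀ w x, D w x → f' w x = f w x := by
  classical
  obtain ⟨g, hg, h'⟩ := h
  refine ⟨fun w x => if ∀ v, x v ≤ w.length + 1 then g w x else f w x,
    hg.congr fun w x hx => if_pos hx, fun w x hD => ?_⟩
  dsimp only
  split_ifs with hx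
  · exact h' w x hx hD
  · rfl

theorem IsLon.of (h : IsL β V R) : IsLon β V D R := ⟨R, h, fun _ _ _ _ => Iff.rfl⟩

theorem IsLon.mono (h : IsLon β V D R) (h' : ∀ w x, D' w x → D w x) : IsLon β V D' R := by
  obtain ⟨S, hS, h1⟩ := h
  exact ⟨S, hS, fun w x hx hD => h1 w x hx (h' w x hD)⟩

theorem IsLon.and (h : IsLon β V D R) (h' : IsLon β V D R') :
    IsLon β V D (fun w x => R w x ∧ R' w x) := by
  obtain ⟨S, hS, h1⟩ := h
  obtain ⟨S', hS', h1'⟩ := h'
  exact ⟨_, IsL.and hS hS', fun w x hx hD => and_congr (h1 w x hx hD) (h1' w x hx hD)⟩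

theorem IsLon.or (h : IsLon β V D R) (h' : IsLon β V D R') :
    IsLon β V D (fun w x => R w x ∨ R' w x) := by
  obtain ⟨S, hS, h1⟩ := h
  obtain ⟨S', hS', h1'⟩ := h'
  exact ⟨_, IsL.or hS hS', fun w x hx hD => or_congr (h1 w x hx hD) (h1' w x hx hD)⟩

theorem IsLon.not (h : IsLon β V D R) : IsLon β V D (fun w x => ¬ R w x) := by
  obtain ⟨S, hS, h1⟩ := h
  exact ⟨_, IsL.not hS, fun w x hx hD => not_congr (h1 w x hx hD)⟩

section Fin

variable [Finite V]

theorem IsLon.eq (hf : FLon β V D f) (hg : FLon β V D g) :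
    IsLon β V D (fun w x => f w x = g w x) := by
  obtain ⟨f', hf', h⟩ := hf
  obtain ⟨g', hg', h'⟩ := hg
  exact ⟨_, isL_eq hf' hg', fun w x hx hD => by rw [h w x hx hD, h' w x hx hD]⟩

theorem IsLon.le (hf : FLon β V D f) (hg : FLon β V D g) :
    IsLon β V D (fun w x => f w x ≤ g w x) := by
  obtain ⟨f', hf', h⟩ := hf
  obtain ⟨g', hg', h'⟩ := hg
  exact ⟨_, isL_le hf' hg', fun w x hx hD => by rw [h w x hx hD, h' w x hx hD]⟩

theorem IsLon.lt (hf : FLon β V D f) (hg : FLon β V D g) :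
    IsLon β V D (fun w x => f w x < g w x) := by
  obtain ⟨f', hf', h⟩ := hf
  obtain ⟨g', hg', h'⟩ := hg
  exact ⟨_, isL_lt hf' hg', fun w x hx hD => by rw [h w x hx hD, h' w x hx hD]⟩

theorem IsLon.eqConst (c : ℕ) (hf : FLon β V D f) : IsLon β V D (fun w x => f w x = c) := by
  obtain ⟨f', hf', h⟩ := hf
  refine ⟨_, isL_comp (isL_const c (V := Unit) ()) (fun _ => hf'), fun w x hx hD => ?_⟩
  rw [h w x hx hD]

theorem FLon.ite [∀ w x, Decidable (R w x)] (hR : IsLon β V D R)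
    (hf : FLon β V (fun w x => D w x ∧ R w x) f) (hg : FLon β V (fun w x => D w x ∧ ¬ R w x) g) :
    FLon β V D (fun w x => if R w x then f w x else g w x) := by
  classical
  obtain ⟨S, hS, h1⟩ := hR
  obtain ⟨f', hf', h⟩ := hf
  obtain ⟨g', hg', h'⟩ := hg
  refine ⟨_, FL.ite hS hf' hg', fun w x hx hD => ?_⟩
  dsimp only
  by_cases hR : R w x
  · rw [if_pos ((h1 w x hx hD).2 hR), if_pos hR, h w x hx ⟨hD, hR⟩]
  · rw [if_neg (mt (h1 w x hx hD).1 hR), if_neg hR, h' w x hx ⟨hD, hR⟩]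

/-- `FLon.ite` with unrefined domains. -/
theorem FLon.ite' [∀ w x, Decidable (R w x)] (hR : IsLon β V D R)
    (hf : FLon β V D f) (hg : FLon β V D g) :
    FLon β V D (fun w x => if R w x then f w x else g w x) :=
  FLon.ite hR (hf.mono fun _ _ h => h.1) (hg.mono fun _ _ h => h.1)

theorem FLon.comp [Finite U] {F : List β → (U → ℕ) → ℕ} {G : U → List β → (V → ℕ) → ℕ}
    (hF : FL β U F) (hG : ∀ u, FLon β V D (G u)) :
    FLon β V D (fun w x => F w (fun u => G u w x)) := by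
  choose G' hG' h using hG
  refine ⟨_, FL.comp hF hG', fun w x hx hD => ?_⟩
  have : (fun u => G' u w x) = fun u => G u w x := funext fun u => h u w x hx hD
  rw [this]

theorem FLon.reindex [Finite U] {D : List β → (U → ℕ) → Prop} {F : List β → (U → ℕ) → ℕ}
    (hF : FLon β U D F) (e : U → V) :
    FLon β V (fun w z => D w (z ∘ e)) (fun w z => F w (z ∘ e)) := by
  obtain ⟨F', hF', h⟩ := hF
  exact ⟨fun w z => F' w (z ∘ e), FL.comp hF' (fun u => FL.proj (e u)),
    fun w x hx hD => h w _ (fun u => hx _) hD⟩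

theorem FLon.add (hf : FLon β V D f) (hg : FLon β V D g)
    (hb : ∀ w x, (∀ v, x v ≤ w.length + 1) → D w x → f w x + g w x ≤ w.length + 1) :
    FLon β V D (fun w x => f w x + g w x) := by
  obtain ⟨f', hf', h⟩ := hf
  obtain ⟨g', hg', h'⟩ := hg
  refine ⟨_, FL.add hf' hg', fun w x hx hD => ?_⟩
  rw [h w x hx hD, h' w x hx hD, min_eq_left (hb w x hx hD)]

theorem FLon.mul (hf : FLon β V D f) (hg : FLon β V D g)
    (hb : ∀ w x, (∀ v, x v ≤ w.length + 1) → D w x → f w x * g w x ≤ w.length + 1) :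
    FLon β V D (fun w x => f w x * g w x) := by
  obtain ⟨f', hf', h⟩ := hf
  obtain ⟨g', hg', h'⟩ := hg
  refine ⟨_, FL.mul hf' hg', fun w x hx hD => ?_⟩
  rw [h w x hx hD, h' w x hx hD, min_eq_left (hb w x hx hD)]

theorem FLon.pow (hf : FLon β V D f) (hg : FLon β V D g)
    (hb : ∀ w x, (∀ v, x v ≤ w.length + 1) → D w x → f w x ^ g w x ≤ w.length + 1) :
    FLon β V D (fun w x => f w x ^ g w x) := by
  obtain ⟨f', hf', h⟩ := hf
  obtain ⟨g', hg', h'⟩ := hg
  refine ⟨_, FL.pow hf' hg', fun w x hx hD => ?_⟩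
  rw [h w x hx hD, h' w x hx hD, min_eq_left (hb w x hx hD)]

theorem FLon.sub (hf : FLon β V D f) (hg : FLon β V D g) :
    FLon β V D (fun w x => f w x - g w x) := by
  obtain ⟨f', hf', h⟩ := hf
  obtain ⟨g', hg', h'⟩ := hg
  exact ⟨_, FL.sub hf' hg', fun w x hx hD => by rw [h w x hx hD, h' w x hx hD]⟩

theorem FLon.div (hf : FLon β V D f) (hg : FLon β V D g) :
    FLon β V D (fun w x => f w x / g w x) := by
  obtain ⟨f', hf', h⟩ := hf
  obtain ⟨g', hg', h'⟩ := hg
  exact ⟨_, FL.div hf' hg', fun w x hx hD => by rw [h w x hx hD, h' w x hx hD]⟩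

theorem FLon.mod (hf : FLon β V D f) (hg : FLon β V D g) :
    FLon β V D (fun w x => f w x % g w x) := by
  obtain ⟨f', hf', h⟩ := hf
  obtain ⟨g', hg', h'⟩ := hg
  exact ⟨_, FL.mod hf' hg', fun w x hx hD => by rw [h w x hx hD, h' w x hx hD]⟩

theorem FLon.min (hf : FLon β V D f) (hg : FLon β V D g) :
    FLon β V D (fun w x => min (f w x) (g w x)) := by
  obtain ⟨f', hf', h⟩ := hf
  obtain ⟨g', hg', h'⟩ := hg
  exact ⟨_, FL.min' hf' hg', fun w x hx hD => by rw [h w x hx hD, h' w x hx hD]⟩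

theorem FLon.succ (hf : FLon β V D f)
    (hb : ∀ w x, (∀ v, x v ≤ w.length + 1) → D w x → f w x + 1 ≤ w.length + 1) :
    FLon β V D (fun w x => f w x + 1) := hf.add FLon.one hb

theorem FLon.pred (hf : FLon β V D f) : FLon β V D (fun w x => f w x - 1) := hf.sub FLon.one

theorem FLon.sum {I : Type} (s : Finset I) {F : I → List β → (V → ℕ) → ℕ}
    (hF : ∀ i ∈ s, FLon β V D (F i))
    (hb : ∀ w x, (∀ v, x v ≤ w.length + 1) → D w x → ∑ i ∈ s, F i w x ≤ w.length + 1) :
    FLon β V D (fun w x => ∑ i ∈ s, F i w x) := by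
  classical
  induction s using Finset.induction_on with
  | empty => exact FLon.zero.congr fun w x _ _ => by simp
  | insert a s ha ih =>
    have hb' : ∀ w x, (∀ v, x v ≤ w.length + 1) → D w x →
        F a w x + ∑ i ∈ s, F i w x ≤ w.length + 1 := by
      intro w x hx hD
      have := hb w x hx hD
      rwa [Finset.sum_insert ha] at this
    refine ((hF a (Finset.mem_insert_self _ _)).add
      (ih (fun i hi => hF i (Finset.mem_insert_of_mem hi)) fun w x hx hD =>
        (Nat.le_add_left _ _).trans (hb' w x hx hD)) hb').congr fun w x _ _ => ?_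
    rw [Finset.sum_insert ha]

end Fin

section Codes

theorem sum_digits_lt (B : ℕ) (hB : 0 < B) : ∀ (n : ℕ) (a : Fin n → ℕ), (∀ j, a j < B) →
    ∑ j, a j * B ^ (j : ℕ) < B ^ n
  | 0, _, _ => by simp
  | n + 1, a, h => by
    rw [Fin.sum_univ_castSucc]
    have h1 := sum_digits_lt B hB n (fun j => a (Fin.castSucc j)) (fun j => h _)
    have h2 : a (Fin.last n) * B ^ (Fin.last n : ℕ) ≤ (B - 1) * B ^ n := by
      rw [Fin.val_last]
      exact Nat.mul_le_mul_right _ (by have := h (Fin.last n); omega)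
    have h3 : B ^ (n + 1) = (B - 1) * B ^ n + B ^ n := by
      obtain ⟨B', rfl⟩ : ∃ B', B = B' + 1 := ⟨B - 1, by omega⟩
      rw [Nat.add_sub_cancel]; ring
    rw [h3]
    simp only [Fin.val_castSucc] at h1 ⊢
    omega

theorem encI_lt_pow {I : Type} [Fintype I] {B : ℕ} (hB : 0 < B) (a : I → ℕ)
    (h : ∀ i, a i < B) : encI B a < B ^ Fintype.card I := by
  have h1 := sum_digits_lt B hB (Fintype.card I) (fun j => a ((Fintype.equivFin I).symm j))
    (fun j => h _)
  have h2 : encI B a = ∑ j : Fin (Fintype.card I),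
      a ((Fintype.equivFin I).symm j) * B ^ (j : ℕ) := by
    unfold encI pos
    rw [← (Fintype.equivFin I).sum_comp]
    simp
  rw [h2]
  exact h1

theorem decI_lt {I : Type} [Fintype I] {B : ℕ} (hB : 0 < B) (s : ℕ) (i : I) :
    decI B s i < B := Nat.mod_lt _ hB

theorem pos_lt {I : Type} [Fintype I] (i : I) : pos i < Fintype.card I := (Fintype.equivFin I i).2

variable [Finite V]

theorem FLon.powPos {I : Type} [Fintype I] {Bf : List β → (V → ℕ) → ℕ} (hB : FLon β V D Bf)
    (hB0 : ∀ w x, D w x → 0 < Bf w x)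
    (hc : ∀ w x, D w x → Bf w x ^ Fintype.card I ≤ w.length + 1) (i : I) :
    FLon β V D (fun w x => Bf w x ^ pos i) := by
  have h : ∀ n ≤ Fintype.card I, FLon β V D (fun w x => Bf w x ^ n) := by
    intro n
    induction n with
    | zero => exact fun _ => FLon.one.congr fun w x _ _ => by simp
    | succ n ih =>
      intro hn
      refine (FLon.mul (ih (by omega)) hB fun w x _ hD => ?_).congr fun w x _ _ => pow_succ _ _
      rw [← pow_succ]
      exact (Nat.pow_le_pow_right (hB0 w x hD) hn).trans (hc w x hD)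
  exact h _ (pos_lt i).le

theorem FLon.decI {I : Type} [Fintype I] {Bf s : List β → (V → ℕ) → ℕ} (hB : FLon β V D Bf)
    (hs : FLon β V D s) (hB0 : ∀ w x, D w x → 0 < Bf w x)
    (hc : ∀ w x, D w x → Bf w x ^ Fintype.card I ≤ w.length + 1) (i : I) :
    FLon β V D (fun w x => decI (Bf w x) (s w x) i) :=
  (hs.div (hB.powPos hB0 hc i)).mod hB

theorem FLon.encI {I : Type} [Fintype I] {Bf : List β → (V → ℕ) → ℕ}
    {a : I → List β → (V → ℕ) → ℕ} (hB : FLon β V D Bf) (ha : ∀ i, FLon β V D (a i))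
    (hB0 : ∀ w x, D w x → 0 < Bf w x)
    (hlt : ∀ w x, D w x → ∀ i, a i w x < Bf w x)
    (hc : ∀ w x, D w x → Bf w x ^ Fintype.card I ≤ w.length + 1) :
    FLon β V D (fun w x => encI (Bf w x) (fun i => a i w x)) := by
  have hb : ∀ w x, D w x → ∑ i, a i w x * Bf w x ^ pos i ≤ w.length + 1 := by
    intro w x hD
    exact (encI_lt_pow (hB0 w x hD) (fun i => a i w x) (hlt w x hD)).le.trans (hc w x hD)
  refine FLon.sum Finset.univ (F := fun i w x => a i w x * Bf w x ^ pos i) (fun i _ => ?_)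
    fun w x _ hD => hb w x hD
  refine (ha i).mul (hB.powPos hB0 hc i) fun w x _ hD => ?_
  exact (Finset.single_le_sum (f := fun i => a i w x * Bf w x ^ pos i) (fun _ _ => Nat.zero_le _)
    (Finset.mem_univ i)).trans (hb w x hD)

end Codes

end Pool.Agent.Helper17.UL
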