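import Pool.Agent.Helper17.UL.EvDefs
import Pool.Agent.Helper32.UL.FLon

set_option autoImplicit false

/-!
# E1: the walk is computable
-/

namespace Pool.Agent.Helper17.UL

open Pool.Agent.Helper17.SL Pool.Agent.Helper6

namespace WalkFL

variable {β U V : Type} [Finite V] {D : List β → (V → ℕ) → Prop}

theorem param {f : List β → ℕ} (h : FL β Empty (fun w _ => f w)) : FL β V (fun w _ => f w) :=
  FL.comp (f := fun w _ => f w) h (g := fun u => u.elim) (fun u => u.elim)

theorem iteMap {γ : Type} (φ : γ → ℕ) {R : List β → (V → ℕ) → Prop}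
    [∀ w x, Decidable (R w x)] {x y : List β → (V → ℕ) → γ} (hR : IsLon β V D R)
    (hx : FLon β V (fun w z => D w z ∧ R w z) (fun w z => φ (x w z)))
    (hy : FLon β V (fun w z => D w z ∧ ¬ R w z) (fun w z => φ (y w z))) :
    FLon β V D (fun w z => φ (if R w z then x w z else y w z)) :=
  (FLon.ite hR hx hy).congr fun w z _ _ => by split_ifs <;> rfl

theorem iteMap' {γ : Type} (φ : γ → ℕ) {R : List β → (V → ℕ) → Prop}
    [∀ w x, Decidable (R w x)] {x y : List β → (V → ℕ) → γ} (hR : IsLon β V D R)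
    (hx : FLon β V D (fun w z => φ (x w z))) (hy : FLon β V D (fun w z => φ (y w z))) :
    FLon β V D (fun w z => φ (if R w z then x w z else y w z)) :=
  iteMap φ hR (hx.mono fun _ _ h => h.1) (hy.mono fun _ _ h => h.1)

omit [Finite V] in
theorem flon_item {tag sg j t s : List β → (V → ℕ) → ℕ} {a : List β → (V → ℕ) → U → ℕ}
    (h1 : FLon β V D tag) (h2 : FLon β V D sg) (h3 : FLon β V D j) (h4 : FLon β V D t)
    (h5 : FLon β V D s) (h6 : ∀ u, FLon β V D (fun w z => a w z u)) (i : TI U) :
    FLon β V D (fun w z => codeIt ⟨tag w z, sg w z, j w z, t w z, s w z, a w z⟩ i) := by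
  cases i
  case tag => exact h1
  case sg => exact h2
  case j => exact h3
  case t => exact h4
  case s => exact h5
  case a u => exact h6 u

/-- The hypotheses on a word. -/
structure Good (S : List β → Scheme (U → ℕ)) (f r n : List β → ℕ) (w : List β)
    (G : (U → ℕ) → Prop) (dep : (U → ℕ) → ℕ) (b : ℕ) : Prop where
  ok : (S w).Ok G dep b (r w)
  bd : ∀ a, G a → ∀ u, a u ≤ w.length + 1
  f7 : 7 * f w ≤ r w
  f1 : 1 < f w
  rn : r w ^ n w ≤ w.length
  n1 : 1 ≤ n w

/-- The invariant of the items. -/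
structure Inv (S : List β → Scheme (U → ℕ)) (r n : List β → ℕ) (w : List β)
    (G : (U → ℕ) → Prop) (dep : (U → ℕ) → ℕ) (it : Item (U → ℕ)) : Prop where
  g : G it.a
  dep : dep it.a ≤ n w
  tag : it.tag ≤ 6
  sg : it.sg ≤ 1
  j : it.j ≤ 3
  leaf : it.tag = 1 → ¬ (S w).isLeaf it.a
  t : it.tag = 1 → it.t ≤ (S w).dig it.a
  s : it.tag = 1 → it.s < r w ^ ((S w).dig it.a - it.t)

variable {S : List β → Scheme (U → ℕ)} {f r n : List β → ℕ}

omit [Finite V]

theorem Good.r0 {w : List β} {G : (U → ℕ) → Prop} {dep : (U → ℕ) → ℕ} {b : ℕ}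
    (h : Good S f r n w G dep b) : 14 ≤ r w := by
  have h1 := h.f7
  have h2 := h.f1
  omega

theorem Good.rl {w : List β} {G : (U → ℕ) → Prop} {dep : (U → ℕ) → ℕ} {b : ℕ}
    (h : Good S f r n w G dep b) : r w ≤ w.length := by
  have h1 := h.r0
  have h2 : r w ^ 1 ≤ r w ^ n w := Nat.pow_le_pow_right (by omega) h.n1
  rw [pow_one] at h2
  exact h2.trans h.rn

theorem dig_le {w : List β} {G : (U → ℕ) → Prop} {dep : (U → ℕ) → ℕ} {b : ℕ}
    (h : Good S f r n w G dep b) {a : U → ℕ} (ha : G a) (hl : ¬ (S w).isLeaf a) :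
    (S w).dig a ≤ dep a := by
  have h1 := h.ok.dk a ha hl 0 (Nat.pow_pos (by have := h.r0; omega))
  omega

/-- The invariant is preserved. -/
theorem Inv.rule {w : List β} {G : (U → ℕ) → Prop} {dep : (U → ℕ) → ℕ} {b : ℕ}
    (h : Good S f r n w G dep b) {it : Item (U → ℕ)} (hi : Inv S r n w G dep it) {c : ℕ}
    (hc : c < r w) : Inv S r n w G dep (rule (S w) (r w) (f w) it c) := by
  have hr := h.r0
  have h6 : Inv S r n w G dep ⟨6, 0, 0, 0, 0, it.a⟩ :=
    ⟨hi.g, hi.dep, le_rfl, by norm_num, by norm_num, by norm_num, by norm_num, by norm_num⟩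
  have h0 : ∀ a, G a → dep a ≤ n w → ∀ j sg, Inv S r n w G dep ⟨0, min sg 1, j % 4, 0, 0, a⟩ := by
    intro a ha hd j sg
    exact ⟨ha, hd, by norm_num, by dsimp only; omega, by dsimp only; omega,
      by norm_num, by norm_num, by norm_num⟩
  by_cases h1 : it.tag = 0
  · by_cases h2 : (S w).isLeaf it.a
    · unfold UL.rule
      rw [if_pos h1, if_pos h2]
      split_ifs
      · exact ⟨hi.g, hi.dep, by norm_num, hi.sg, hi.j, by norm_num, by norm_num, by norm_num⟩
      · exact h6
    · have d1 := h.ok.d1 _ hi.g h2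
      have d2 := h.ok.d2 _ hi.g h2
      have hd := hi.dep
      have e1 := h0 _ (h.ok.g1 _ hi.g h2) (by omega) (it.j + 1)
      have e2 := h0 _ (h.ok.g2 _ hi.g h2) (by omega) (it.j + 2)
      unfold UL.rule
      rw [if_pos h1, if_neg h2]
      split_ifs
      · exact h6
      · exact ⟨hi.g, hi.dep, by norm_num, by norm_num, hi.j, by norm_num, by norm_num,
          by norm_num⟩
      · exact e1 0
      · exact e2 0
      · exact ⟨hi.g, hi.dep, by norm_num, hi.sg, hi.j, fun _ => h2, fun _ => le_rfl,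
          fun _ => by simp⟩
      · exact e2 1
      · exact e1 1
      · exact ⟨hi.g, hi.dep, by norm_num, by norm_num, hi.j, by norm_num, by norm_num,
          by norm_num⟩
  by_cases h3 : it.tag = 1
  · have hl := hi.leaf h3
    by_cases h4 : it.t = 0
    · have hs := hi.s h3
      rw [h4, Nat.sub_zero] at hs
      have dk := h.ok.dk _ hi.g hl _ hs
      have hd := hi.dep
      have e1 := h0 _ (h.ok.gk _ hi.g hl _ hs) (by omega) (it.j + 3)
      unfold UL.rule
      rw [if_neg h1, if_pos h3, if_pos h4]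
      split_ifs
      · exact ⟨hi.g, hi.dep, by norm_num, hi.sg, hi.j, by norm_num, by norm_num, by norm_num⟩
      · exact e1 0
      · exact ⟨hi.g, hi.dep, by norm_num, by dsimp only; omega, hi.j, by norm_num, by norm_num,
          by norm_num⟩
      · exact e1 1
      · exact h6
    · unfold UL.rule
      rw [if_neg h1, if_pos h3, if_neg h4]
      have ht := hi.t h3
      have hs := hi.s h3
      refine ⟨hi.g, hi.dep, by norm_num, hi.sg, hi.j, fun _ => hl, fun _ => by dsimp only; omega,
        fun _ => ?_⟩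
      dsimp only
      have e2 : (S w).dig it.a - (it.t - 1) = (S w).dig it.a - it.t + 1 := by omega
      rw [e2, pow_succ]
      calc it.s * r w + c < it.s * r w + r w := by omega
        _ = (it.s + 1) * r w := by ring
        _ ≤ r w ^ ((S w).dig it.a - it.t) * r w := Nat.mul_le_mul_right _ hs
  · unfold UL.rule
    rw [if_neg h1, if_neg h3]
    split_ifs
    · exact hi
    · exact h6

/-- The domain. -/
def DR (S : List β → Scheme (U → ℕ)) (f r n : List β → ℕ) (w : List β)
    (z : TI U ⊕ Unit → ℕ) : Prop :=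
  ∃ G dep b, Good S f r n w G dep b ∧ Inv S r n w G dep (itemOf fun v => z (Sum.inl v)) ∧
    z (Sum.inr ()) < r w

variable [Finite U]

omit [Finite U] in
theorem DR.len {w : List β} {z : TI U ⊕ Unit → ℕ} (h : DR S f r n w z) : 14 ≤ w.length := by
  obtain ⟨G, dep, b, h, -, -⟩ := h
  exact h.r0.trans h.rl

omit [Finite U] in
theorem DR.f_le {w : List β} {z : TI U ⊕ Unit → ℕ} (h : DR S f r n w z) :
    f w ≤ w.length := by
  obtain ⟨G, dep, b, h, -, -⟩ := h
  have := h.rl
  have := h.f7
  omega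

omit [Finite U] in
theorem DR.c_le {w : List β} {z : TI U ⊕ Unit → ℕ} (h : DR S f r n w z) :
    z (Sum.inr ()) < w.length := by
  obtain ⟨G, dep, b, h, -, h2⟩ := h
  have := h.rl
  omega

omit [Finite U] in
theorem DR.s_le {w : List β} {z : TI U ⊕ Unit → ℕ} (h : DR S f r n w z)
    (h1 : z (Sum.inl .tag) = 1) (h4 : z (Sum.inl .t) ≠ 0) :
    z (Sum.inl .s) * r w + z (Sum.inr ()) ≤ w.length := by
  obtain ⟨G, dep, b, h, hi, hc⟩ := h
  have hi2 := hi.rule h hc
  unfold UL.rule at hi2
  rw [if_neg (show ¬ (itemOf fun v => z (Sum.inl v)).tag = 0 by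
    change ¬ z (Sum.inl .tag) = 0; omega),
    if_pos (show (itemOf fun v => z (Sum.inl v)).tag = 1 from h1),
    if_neg (show ¬ (itemOf fun v => z (Sum.inl v)).t = 0 from h4)] at hi2
  have h2 := hi2.s rfl
  dsimp only at h2
  have h3 := dig_le h hi.g (hi.leaf h1)
  have h5 := hi.dep
  have h6 : r w ^ ((S w).dig (itemOf fun v => z (Sum.inl v)).a -
      ((itemOf fun v => z (Sum.inl v)).t - 1)) ≤ r w ^ n w :=
    Nat.pow_le_pow_right (by have := h.r0; omega) (by omega)
  exact h2.le.trans (h6.trans h.rn)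

omit [Finite U] in
theorem DR.j_le {w : List β} {z : TI U ⊕ Unit → ℕ} (h : DR S f r n w z) :
    z (Sum.inl .j) ≤ 3 := by
  obtain ⟨G, dep, b, h, hi, hc⟩ := h
  exact hi.j

theorem rule_on (hS : SchemeFL β U S) (hf : FL β Empty (fun w _ => f w))
    (hr : FL β Empty (fun w _ => r w)) (i : TI U) :
    FLon β (TI U ⊕ Unit) (DR S f r n) (fun w z =>
      codeIt (rule (S w) (r w) (f w) (itemOf fun v => z (Sum.inl v)) (z (Sum.inr ()))) i) := by
  classical
  have pj : ∀ (D : List β → (TI U ⊕ Unit → ℕ) → Prop) v,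
    FLon β (TI U ⊕ Unit) D (fun _ z => z v) := fun _ v => FLon.proj v
  have cst : ∀ k ≤ 8, FLon β (TI U ⊕ Unit) (DR S f r n) (fun _ _ => k) := fun k hk =>
    FLon.const k fun w z h => by have := h.len; omega
  have hleaf : IsLon β (TI U ⊕ Unit) (DR S f r n) (fun w z =>
      (S w).isLeaf (itemOf fun v => z (Sum.inl v)).a) :=
    IsLon.of (isL_comp (R := fun w a => (S w).isLeaf a) hS.isLeaf
      (g := fun u _ z => z (Sum.inl (TI.a u))) fun u => FL.proj _)
  have hc1 : ∀ u, FLon β (TI U ⊕ Unit) (DR S f r n) (fun w z =>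
      (S w).c1 (itemOf fun v => z (Sum.inl v)).a u) := fun u =>
    FLon.of (FL.comp (f := fun w a => (S w).c1 a u) (hS.c1 u)
      (g := fun u _ z => z (Sum.inl (TI.a u))) fun u => FL.proj _)
  have hc2 : ∀ u, FLon β (TI U ⊕ Unit) (DR S f r n) (fun w z =>
      (S w).c2 (itemOf fun v => z (Sum.inl v)).a u) := fun u =>
    FLon.of (FL.comp (f := fun w a => (S w).c2 a u) (hS.c2 u)
      (g := fun u _ z => z (Sum.inl (TI.a u))) fun u => FL.proj _)
  have hdig : FLon β (TI U ⊕ Unit) (DR S f r n) (fun w z =>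
      (S w).dig (itemOf fun v => z (Sum.inl v)).a) :=
    FLon.of (FL.comp (f := fun w a => (S w).dig a) hS.dig
      (g := fun u _ z => z (Sum.inl (TI.a u))) fun u => FL.proj _)
  have hkap : ∀ u, FLon β (TI U ⊕ Unit) (DR S f r n) (fun w z =>
      (S w).kap (itemOf fun v => z (Sum.inl v)).a (z (Sum.inl .s)) u) := fun u =>
    FLon.of (FL.comp (f := fun w z => (S w).kap (z ∘ Sum.inl) (z (Sum.inr ())) u) (hS.kap u)
      (g := fun v _ z => z (Sum.inl (Sum.elim TI.a (fun _ => TI.s) v))) fun u => FL.proj _)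
  have ha : ∀ u, FLon β (TI U ⊕ Unit) (DR S f r n) (fun w z =>
      (itemOf fun v => z (Sum.inl v)).a u) := fun u => pj _ (Sum.inl (.a u))
  have c0 := cst 0 (by norm_num)
  have c1 := cst 1 (by norm_num)
  have c7 := cst 7 (by norm_num)
  have htag := pj (DR S f r n) (Sum.inl .tag)
  have hsg := pj (DR S f r n) (Sum.inl .sg)
  have hj := pj (DR S f r n) (Sum.inl .j)
  have ht := pj (DR S f r n) (Sum.inl .t)
  have hs := pj (DR S f r n) (Sum.inl .s)
  have hc := pj (DR S f r n) (Sum.inr ())
  have i6 : FLon β (TI U ⊕ Unit) (DR S f r n) (fun w z =>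
      codeIt ⟨6, 0, 0, 0, 0, (itemOf fun v => z (Sum.inl v)).a⟩ i) :=
    flon_item (cst 6 (by norm_num)) c0 c0 c0 c0 ha i
  have hjk : ∀ k ≤ 3, FLon β (TI U ⊕ Unit) (DR S f r n) (fun w z =>
      (z (Sum.inl .j) + k) % 4) := fun k hk =>
    FLon.mod (FLon.add hj (cst k (by omega)) fun w z _ h => by
      have := h.j_le
      have := h.len
      omega) (cst 4 (by norm_num))
  have hc7 : FLon β (TI U ⊕ Unit) (DR S f r n) (fun w z => z (Sum.inr ()) / 7 + 1) :=
    FLon.succ (FLon.div hc c7) fun w z _ h => by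
      have := h.c_le
      have := Nat.div_le_self (z (Sum.inr ())) 7
      omega
  have hcm : FLon β (TI U ⊕ Unit) (DR S f r n) (fun w z => z (Sum.inr ()) % 7) :=
    FLon.mod hc c7
  have hff : FLon β (TI U ⊕ Unit) (DR S f r n) (fun w z => f w) := FLon.of (param hf)
  unfold rule
  refine iteMap' (fun it => codeIt it i) (IsLon.eqConst 0 htag) ?_ ?_
  · refine iteMap' (fun it => codeIt it i) hleaf ?_ ?_
    · refine iteMap' (fun it => codeIt it i) (IsLon.eqConst 0 hc) ?_ i6
      exact flon_item (cst 2 (by norm_num)) hsg hj c0 c0 ha i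
    refine iteMap' (fun it => codeIt it i) (IsLon.le hff hc7) i6 ?_
    refine iteMap' (fun it => codeIt it i) (IsLon.eqConst 0 hcm) ?_ ?_
    · exact flon_item (cst 3 (by norm_num)) c0 hj c0 hc7 ha i
    refine iteMap' (fun it => codeIt it i) (IsLon.eqConst 1 hcm) ?_ ?_
    · exact flon_item c0 c0 (hjk 1 (by norm_num)) c0 c0 hc1 i
    refine iteMap' (fun it => codeIt it i) (IsLon.eqConst 2 hcm) ?_ ?_
    · exact flon_item c0 c0 (hjk 2 (by norm_num)) c0 c0 hc2 i
    refine iteMap' (fun it => codeIt it i) (IsLon.eqConst 3 hcm) ?_ ?_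
    · exact flon_item c1 hsg hj hdig c0 ha i
    refine iteMap' (fun it => codeIt it i) (IsLon.eqConst 4 hcm) ?_ ?_
    · exact flon_item c0 c1 (hjk 2 (by norm_num)) c0 c0 hc2 i
    refine iteMap' (fun it => codeIt it i) (IsLon.eqConst 5 hcm) ?_ ?_
    · exact flon_item c0 c1 (hjk 1 (by norm_num)) c0 c0 hc1 i
    · exact flon_item (cst 4 (by norm_num)) c0 hj c0 hc7 ha i
  refine iteMap (fun it => codeIt it i) (IsLon.eqConst 1 htag) ?_ ?_
  · refine iteMap (fun it => codeIt it i) (IsLon.eqConst 0 (pj _ (Sum.inl .t))) ?_ ?_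
    · refine FLon.mono ?_ fun w z (h : (DR S f r n w z ∧ _) ∧ _) => h.1.1
      refine iteMap' (fun it => codeIt it i) (IsLon.eqConst 0 hc) ?_ ?_
      · exact flon_item (cst 5 (by norm_num)) hsg hj c0 hs ha i
      refine iteMap' (fun it => codeIt it i) (IsLon.eqConst 1 hc) ?_ ?_
      · exact flon_item c0 c0 (hjk 3 (by norm_num)) c0 c0 hkap i
      refine iteMap' (fun it => codeIt it i) (IsLon.eqConst 2 hc) ?_ ?_
      · exact flon_item (cst 5 (by norm_num)) (FLon.sub c1 hsg) hj c0 hs ha i
      refine iteMap' (fun it => codeIt it i) (IsLon.eqConst 3 hc) ?_ i6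
      · exact flon_item c0 c1 (hjk 3 (by norm_num)) c0 c0 hkap i
    · refine flon_item (c1.mono fun w z h => h.1.1) (pj _ (Sum.inl .sg)) (pj _ (Sum.inl .j))
        (FLon.pred (pj _ (Sum.inl .t))) ?_ (fun u => pj _ (Sum.inl (.a u))) i
      refine FLon.add (FLon.mul (pj _ (Sum.inl .s)) (FLon.of (param hr)) ?_) (pj _ (Sum.inr ())) ?_
      · intro w z _ h
        have := h.1.1.s_le h.1.2 h.2
        change z (Sum.inl .s) * r w ≤ w.length + 1
        omega
      · intro w z _ h
        have := h.1.1.s_le h.1.2 h.2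
        change z (Sum.inl .s) * r w + z (Sum.inr ()) ≤ w.length + 1
        omega
  · refine FLon.mono ?_ fun w z (h : DR S f r n w z ∧ _) => h.1
    refine iteMap' (fun it => codeIt it i) (IsLon.eqConst 0 hc) ?_ i6
    cases i <;> exact pj _ (Sum.inl _)

end WalkFL

open WalkFL in
theorem walk_FL {β U : Type} [Finite U] (S : List β → Scheme (U → ℕ)) (hS : SchemeFL β U S)
    {f r n : List β → ℕ}
    (hf : FL β Empty (fun w _ => f w)) (hr : FL β Empty (fun w _ => r w))
    (hn : FL β Empty (fun w _ => n w)) {a0 : List β → U → ℕ}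
    (ha0 : ∀ u, FL β Empty (fun w _ => a0 w u)) :
    ∃ W : List β → ℕ → TI U → ℕ, (∀ i, FL β Unit (fun w x => W w (x ()) i)) ∧
      ∀ (w : List β) (G : (U → ℕ) → Prop) (dep : (U → ℕ) → ℕ) (b : ℕ),
        (S w).Ok G dep b (r w) → (∀ a, G a → ∀ u, a u ≤ w.length + 1) → G (a0 w) →
        dep (a0 w) + 1 ≤ n w → 7 * f w ≤ r w → 1 < f w → r w ^ n w ≤ w.length →
        ∀ pc < r w ^ n w,
          W w pc = codeIt (walk (S w) (r w) (f w) (n w) ⟨0, 0, 0, 0, 0, a0 w⟩ pc) := by
  choose R hR hR' using fun i => (rule_on (n := n) hS hf hr i).total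
  -- the step function
  let F : TI U ⊕ Bool → List β → ((TI U ⊕ Bool) ⊕ Unit → ℕ) → ℕ := fun v w z =>
    Sum.elim
      (fun i => R i w (Sum.elim (fun v => z (Sum.inl (Sum.inl v)))
        (fun _ => z (Sum.inl (Sum.inr false)) / (z (Sum.inl (Sum.inr true)) / r w))))
      (fun t => if t = true then z (Sum.inl (Sum.inr true)) / r w
        else z (Sum.inl (Sum.inr false)) % (z (Sum.inl (Sum.inr true)) / r w)) v
  have hF : ∀ v, FL β ((TI U ⊕ Bool) ⊕ Unit) (F v) := by
    have h1 : FL β ((TI U ⊕ Bool) ⊕ Unit) (fun w z => z (Sum.inl (Sum.inr true)) / r w) :=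
      FL.div (FL.proj _) (param hr)
    rintro (i | t)
    · refine FL.comp (f := R i) (hR i) (g := fun v w z => Sum.elim
        (fun v => z (Sum.inl (Sum.inl v)))
        (fun _ => z (Sum.inl (Sum.inr false)) / (z (Sum.inl (Sum.inr true)) / r w)) v) ?_
      rintro (v | v)
      · exact FL.proj _
      · exact FL.div (FL.proj _) h1
    · cases t
      · exact FL.mod (FL.proj _) h1
      · exact h1
  let ini : TI U ⊕ Bool → List β → (Unit → ℕ) → ℕ := fun v w x =>
    Sum.elim (fun i => codeIt ⟨0, 0, 0, 0, 0, a0 w⟩ i)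
      (fun t => if t = true then min (r w ^ n w) (w.length + 1) else x ()) v
  have hini : ∀ v, FL β Unit (ini v) := by
    have h0 : FL β Unit (fun _ _ => 0) := (FL.const 0).congr fun w x _ => by simp
    rintro (i | t)
    · cases i
      case a u => exact param (f := fun w => a0 w u) (ha0 u)
      all_goals exact h0
    · cases t
      · exact FL.proj _
      · exact FL.pow (param hr) (param hn)
  refine ⟨fun w pc i => ((fun (y : TI U ⊕ Bool → ℕ) (v : TI U ⊕ Bool) =>
      F v w (Sum.elim y (fun _ => pc)))^[n w] (fun v => ini v w (fun _ => pc))) (Sum.inl i),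
    fun i => ?_, ?_⟩
  · refine (FL.iter hF hini (param hn) (Sum.inl i)).congr fun w x _ => ?_
    have hx : x = fun _ => x () := funext fun _ => rfl
    conv_rhs => rw [hx]
  · intro w G dep b hok hbd hg hdep h7 h1 hrn pc hpc
    have hgood : Good S f r n w G dep b := ⟨hok, hbd, h7, h1, hrn, by omega⟩
    have hr0 := hgood.r0
    have key : ∀ m (it : Item (U → ℕ)) (q : ℕ), Inv S r n w G dep it → q < r w ^ m →
        ∀ i, ((fun (y : TI U ⊕ Bool → ℕ) (v : TI U ⊕ Bool) =>
          F v w (Sum.elim y (fun _ => pc)))^[m]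
            (Sum.elim (codeIt it) (fun t => if t = true then r w ^ m else q))) (Sum.inl i) =
          codeIt (walk (S w) (r w) (f w) m it q) i := by
      intro m
      induction m with
      | zero => intro it q _ _ i; rfl
      | succ m ih =>
        intro it q hi hq i
        rw [Function.iterate_succ_apply]
        have e1 : r w ^ (m + 1) / r w = r w ^ m := by
          rw [pow_succ]
          exact Nat.mul_div_cancel _ (by omega)
        have hc : q / r w ^ m < r w := by
          rw [Nat.div_lt_iff_lt_mul (Nat.pow_pos (by omega)), mul_comm, ← pow_succ]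
          exact hq
        have hm : q % r w ^ m < r w ^ m := Nat.mod_lt _ (Nat.pow_pos (by omega))
        have e2 : (fun (v : TI U ⊕ Bool) => F v w (Sum.elim (Sum.elim (codeIt it)
            (fun t => if t = true then r w ^ (m + 1) else q)) (fun _ => pc))) =
            Sum.elim (codeIt (rule (S w) (r w) (f w) it (q / r w ^ m)))
              (fun t => if t = true then r w ^ m else q % r w ^ m) := by
          funext v
          rcases v with v | t
          · change R v w (Sum.elim (codeIt it) (fun _ => q / (r w ^ (m + 1) / r w))) = _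
            rw [e1, hR' v w (Sum.elim (codeIt it) (fun _ => q / r w ^ m)) ⟨G, dep, b, hgood, hi, hc⟩]
            rfl
          · change (if t = true then r w ^ (m + 1) / r w else q % (r w ^ (m + 1) / r w)) = _
            rw [e1]
            rfl
        rw [e2, ih _ _ (hi.rule hgood hc) hm]
        rfl
    funext i
    have h2 := key (n w) ⟨0, 0, 0, 0, 0, a0 w⟩ pc ⟨hg, by dsimp only; omega, by norm_num,
      by norm_num, by norm_num, by norm_num, by norm_num, by norm_num⟩ hpc i
    rw [← h2]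
    have e3 : (fun v => ini v w (fun _ => pc)) = Sum.elim (codeIt ⟨0, 0, 0, 0, 0, a0 w⟩)
        (fun t => if t = true then r w ^ n w else pc) := by
      funext v
      rcases v with v | t
      · rfl
      · change (if t = true then min (r w ^ n w) (w.length + 1) else pc) = _
        rw [min_eq_left (by omega)]
        rfl
    dsimp only
    rw [e3]

end Pool.Agent.Helper17.UL
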