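import Pool.Agent.Helper32.UL.PhiFLA

set_option autoImplicit false

/-!
# U7: the scheme `PhiS` is computable, second part
-/

namespace Pool.Agent.Helper17.UL

open Pool.Agent.Helper17.SL Pool.Agent.Helper6

variable {c : ℕ}

namespace PhiFL

variable {β V : Type} [Finite V] {D : List β → (V → ℕ) → Prop}
  {p : List β → Prm} {phi0 : List β → (Fin (c + 2) → ℕ) → (Fin (c + 2) → ℕ) → RI c → ℕ}

/-- The domain of the selector. -/
def SD (p : List β → Prm)
    (phi0 : List β → (Fin (c + 2) → ℕ) → (Fin (c + 2) → ℕ) → RI c → ℕ) (w : List β)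
    (z : NI c ⊕ Bool → ℕ) : Prop :=
  GD p phi0 w (z ∘ Sum.inl) ∧ z (Sum.inr false) < 2 ^ (p w).b ∧ z (Sum.inr true) < 2 ^ (p w).b

theorem SD.bound {w : List β} {z : NI c ⊕ Bool → ℕ} (h : SD p phi0 w z) :
    z (Sum.inr false) + 2 ^ (p w).b * z (Sum.inr true) ≤ w.length + 1 ∧
      2 ^ (p w).b * z (Sum.inr true) ≤ w.length + 1 := by
  obtain ⟨⟨D, r, h, -⟩, _, h2⟩ := h
  have h3 := h.h1
  have h4 : 2 ^ (2 * (p w).b) = 2 ^ (p w).b * 2 ^ (p w).b := by rw [two_mul, pow_add]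
  have h5 : 2 ^ (p w).b * (z (Sum.inr true) + 1) ≤ 2 ^ (p w).b * 2 ^ (p w).b :=
    Nat.mul_le_mul_left _ h2
  rw [mul_add, mul_one] at h5
  omega

theorem sel_on (hp : PrmFL β p) :
    FLon β (NI c ⊕ Bool) (SD p phi0) (fun w z => (PhiS (p w) (phi0 w)).sel
      (z ∘ Sum.inl) (z (Sum.inr false)) (z (Sum.inr true))) := by
  have h2 : ∀ w (z : NI c ⊕ Bool → ℕ), SD p phi0 w z → 2 ≤ w.length + 1 := fun w z h => h.1.two
  have hb : ∀ w (z : NI c ⊕ Bool → ℕ), SD p phi0 w z → 2 ^ (p w).b ≤ w.length + 1 :=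
    fun w z h => h.1.pow2b
  have pj : ∀ v, FLon β (NI c ⊕ Bool) (SD p phi0) (fun _ a => a v) := fun v => FLon.proj v
  refine FLon.ite' (IsLon.eqConst 2 (pj _)) ?_ ?_
  · refine FLon.add (pj _) (FLon.mul (flon_pow2b hp h2 hb) (pj _) ?_) ?_
    · exact fun w z _ h => h.bound.2
    · exact fun w z _ h => h.bound.1
  refine FLon.ite' (IsLon.eqConst 4 (pj _)) ?_ (pj _)
  exact FLon.min (FLon.decI (flon_B hp) (pj _) (fun w z h => h.1.B0)
    (fun w z h => h.1.cardCI) _).pred (flon_m hp).pred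

/-- The domain of `kap`. -/
def KD (p : List β → Prm)
    (phi0 : List β → (Fin (c + 2) → ℕ) → (Fin (c + 2) → ℕ) → RI c → ℕ) (w : List β)
    (z : NI c ⊕ Unit → ℕ) : Prop := GD p phi0 w (z ∘ Sum.inl)

theorem KD.gd {w : List β} {z : NI c ⊕ Unit → ℕ} (h : KD p phi0 w z) :
    GD p phi0 w (fun v => z (Sum.inl v)) := h

/-- Decoded components. -/
theorem flon_dec (hp : PrmFL β p) {s : List β → (NI c ⊕ Unit → ℕ) → ℕ}
    (hs : FLon β (NI c ⊕ Unit) (KD p phi0) s) (i : CI c) :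
    FLon β (NI c ⊕ Unit) (KD p phi0) (fun w z => decI (p w).B (s w z) i) :=
  FLon.decI (flon_B hp) hs (fun w z h => h.gd.B0) (fun w z h => h.gd.cardCI) i

theorem flon_decR (hp : PrmFL β p) {s : List β → (NI c ⊕ Unit → ℕ) → ℕ}
    (hs : FLon β (NI c ⊕ Unit) (KD p phi0) s) (i : RI c) :
    FLon β (NI c ⊕ Unit) (KD p phi0) (fun w z => decI (p w).B (s w z) i) :=
  FLon.decI (flon_B hp) hs (fun w z h => h.gd.B0) (fun w z h => h.gd.cardRI) i

/-- The code of the result of a cell. -/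
noncomputable def resC (B s : ℕ) : RI c → ℕ := fun r => match r with
  | .tag => decI B s (CI.ft : CI c)
  | .x i => decI B s (CI.fx i)
  | .u i => decI B s (CI.fu i)

theorem flon_kapA (hp : PrmFL β p) : FLon β (NI c ⊕ Unit) (KD p phi0) (fun w z =>
    encI (p w).B (resC (c := c) (p w).B (z (Sum.inr ()))) % 2 ^ (p w).b) := by
  have pj : ∀ v, FLon β (NI c ⊕ Unit) (KD p phi0) (fun _ a => a v) := fun v => FLon.proj v
  refine flon_enc hp (a := fun w z => resC (c := c) (p w).B (z (Sum.inr ()))) (fun r => ?_)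
    (fun w z h => h.gd.two) (fun w z h => h.gd.pow2b) (fun w z h => h.gd.B0)
    (fun w z h r => ?_) (fun w z h => h.gd.cardRI)
  · cases r
    case tag => exact flon_dec hp (pj _) _
    case x i => exact flon_dec hp (pj _) _
    case u i => exact flon_dec hp (pj _) _
  · cases r
    case tag => exact decI_lt h.gd.B0 _ _
    case x i => exact decI_lt h.gd.B0 _ _
    case u i => exact decI_lt h.gd.B0 _ _

theorem flon_powM (hp : PrmFL β p) : FLon β (NI c ⊕ Unit) (KD p phi0) (fun w z =>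
    (p w).M ^ (z (Sum.inl .d) + 1)) := by
  have pj : ∀ v, FLon β (NI c ⊕ Unit) (KD p phi0) (fun _ a => a v) := fun v => FLon.proj v
  refine (FLon.mul (FLon.pow (flon_M hp) (pj (Sum.inl .d)) fun w z _ h => h.gd.powM.2)
    (flon_M hp) fun w z _ h => ?_).congr fun w z _ _ => pow_succ _ _
  rw [← pow_succ]
  exact h.gd.powM.1

/-- The combined cell. -/
noncomputable def combC (p : Prm) (z : NI c → ℕ) (s : ℕ) : CI c → ℕ :=
  nComb (p.M ^ (z .d + 1)) (fun j => z (.g j)) (fun j => z (.x j)) p.m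
        (z .l) (decI p.B (s % 2 ^ p.b)) (decI p.B (s / 2 ^ p.b % 2 ^ p.b))

theorem flon_kapB (hp : PrmFL β p) : FLon β (NI c ⊕ Unit) (KD p phi0) (fun w z =>
    encI (p w).B (combC (p w) (fun v => z (Sum.inl v)) (z (Sum.inr ()))) % 2 ^ (p w).b) := by
  have pj : ∀ v, FLon β (NI c ⊕ Unit) (KD p phi0) (fun _ a => a v) := fun v => FLon.proj v
  have h2 : ∀ w (z : NI c ⊕ Unit → ℕ), KD p phi0 w z → 2 ≤ w.length + 1 := fun w z h => h.gd.two
  have hb : ∀ w (z : NI c ⊕ Unit → ℕ), KD p phi0 w z → 2 ^ (p w).b ≤ w.length + 1 :=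
    fun w z h => h.gd.pow2b
  have hP : FLon β (NI c ⊕ Unit) (KD p phi0) (fun w _ => 2 ^ (p w).b) := flon_pow2b hp h2 hb
  have e1 : ∀ q : CI c, FLon β (NI c ⊕ Unit) (KD p phi0) (fun w z =>
      decI (p w).B (z (Sum.inr ()) % 2 ^ (p w).b) q) := fun q => flon_dec hp ((pj _).mod hP) q
  have e2 : ∀ q : RI c, FLon β (NI c ⊕ Unit) (KD p phi0) (fun w z =>
      decI (p w).B (z (Sum.inr ()) / 2 ^ (p w).b % 2 ^ (p w).b) q) :=
    fun q => flon_decR hp (((pj _).div hP).mod hP) q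
  refine flon_enc hp (a := fun w z => combC (p w) (fun v => z (Sum.inl v)) (z (Sum.inr ())))
      (fun q => ?_) h2 hb (fun w z h => h.gd.B0) (fun w z h q => ?_) (fun w z h => h.gd.cardCI)
  · refine flon_comb (P := fun w z => (p w).M ^ (z (Sum.inl .d) + 1)) (m := fun w _ => (p w).m)
      (l := fun _ z => z (Sum.inl .l))
      (g := fun _ z j => z (Sum.inl (.g j))) (x := fun _ z j => z (Sum.inl (.x j)))
      (a := fun w z => decI (p w).B (z (Sum.inr ()) % 2 ^ (p w).b))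
      (r := fun w z => decI (p w).B (z (Sum.inr ()) / 2 ^ (p w).b % 2 ^ (p w).b))
      (flon_powM hp) (flon_m hp) (pj _) (fun i => pj _) (fun i => pj _) e1 e2 ?_ ?_ h2 ?_ ?_ q
    · exact fun w z h => h.gd.blk (h.gd.g 0)
    · exact fun w z h => h.gd.blk (h.gd.x 0)
    · intro w z h
      have h1 := decI_lt h.gd.B0 (z (Sum.inr ()) % 2 ^ (p w).b) (CI.len : CI c)
      have h2 := (Nat.pow_le_pow_right h.gd.B0 (show 1 ≤ Fintype.card (CI c) from
        Fintype.card_pos_iff.2 ⟨CI.len⟩)).trans h.gd.cardCI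
      rw [pow_one] at h2
      omega
    · exact fun w z h => h.gd.lt_l
  · exact nComb_lt h.gd.B2 h.gd.x h.gd.m (fun q => decI_lt h.gd.B0 _ _)
      (fun q => decI_lt h.gd.B0 _ _) q

theorem kap_on (hp : PrmFL β p) (u : NI c) :
    FLon β (NI c ⊕ Unit) (KD p phi0) (fun w z => (PhiS (p w) (phi0 w)).kap
      (z ∘ Sum.inl) (z (Sum.inr ())) u) := by
  have pj : ∀ v, FLon β (NI c ⊕ Unit) (KD p phi0) (fun _ a => a v) := fun v => FLon.proj v
  have c0 : FLon β (NI c ⊕ Unit) (KD p phi0) (fun _ _ => 0) := FLon.zero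
  have c1 : FLon β (NI c ⊕ Unit) (KD p phi0) (fun _ _ => 1) := FLon.one
  have c2 : FLon β (NI c ⊕ Unit) (KD p phi0) (fun _ _ => 2) :=
    FLon.const 2 fun w z h => h.gd.two
  have eA := flon_mkN (g := fun _ _ _ => 0) (x := fun _ _ _ => 0) c0 c0 c0 c0
    (flon_kapA (phi0 := phi0) hp) (fun i => c0) (fun i => c0) u
  have eB := flon_mkN (g := fun _ _ _ => 0) (x := fun _ _ _ => 0) c0 c0 c0 c0
    (flon_kapB (phi0 := phi0) hp) (fun i => c0) (fun i => c0) u
  have eC0 := flon_mkN (g := fun _ _ _ => 0) (x := fun _ _ _ => 0) c0 c0 c0 c0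
    c0 (fun i => c0) (fun i => c0) u
  have eC1 := flon_mkN (g := fun w z i => decI (p w).B (z (Sum.inr ())) (CI.en i))
    (x := fun w z i => decI (p w).B (z (Sum.inr ())) (CI.cur i)) c1 (pj (Sum.inl .d)) c0 c0
    c0 (fun i => flon_dec hp (pj _) _) (fun i => flon_dec hp (pj _) _) u
  have eC := FLon.ite' (IsLon.eqConst 0 (flon_dec hp (pj (Sum.inr ())) (CI.et : CI c))) eC0 eC1
  have eD := flon_mkN (g := fun _ z j => z (Sum.inl (.g j))) (x := fun _ z j => z (Sum.inl (.x j)))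
    c2 (pj (Sum.inl .d)) (pj (Sum.inl .i)) (pj (Sum.inr ())) c0 (fun i => pj _) (fun i => pj _) u
  have e3 := FLon.ite' (IsLon.eqConst 3 (pj (Sum.inl .tag))) eC eD
  have e2 := FLon.ite' (IsLon.eqConst 2 (pj (Sum.inl .tag))) eB e3
  have e1 := FLon.ite' (IsLon.eqConst 1 (pj (Sum.inl .tag))) eA e2
  refine e1.congr fun w z _ _ => ?_
  unfold PhiS
  dsimp only [Function.comp_apply]
  by_cases h1 : z (Sum.inl .tag) = 1
  · rw [if_pos h1, if_pos h1]; rfl
  rw [if_neg h1, if_neg h1]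
  by_cases h2 : z (Sum.inl .tag) = 2
  · rw [if_pos h2, if_pos h2]; rfl
  rw [if_neg h2, if_neg h2]
  by_cases h3 : z (Sum.inl .tag) = 3
  · rw [if_pos h3, if_pos h3]
    split_ifs <;> rfl
  rw [if_neg h3, if_neg h3]

theorem isL_eqc {β V : Type} (c : ℕ) (v : V) : IsL β V (fun _ x => x v = c) := isL_const c v

theorem isLeaf_L : IsL β (NI c) (fun w a => (PhiS (p w) (phi0 w)).isLeaf a) := by
  have h4 : IsL β (NI c) (fun _ a => 4 < a .tag) := by
    refine IsL.congr (IsL.not (IsL.or (isL_const 0 (.tag : NI c)) (IsL.or (isL_const 1 .tag)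
      (IsL.or (isL_const 2 .tag) (IsL.or (isL_const 3 .tag) (isL_const 4 .tag)))))) ?_
    intro w x _
    omega
  exact IsL.or (isL_const 0 _) (IsL.or (IsL.and (isL_const 1 _) (IsL.or (isL_const 0 _)
    (isL_lt (FL.proj _) (FL.proj _)))) (IsL.or (IsL.and (isL_const 2 _) (isL_const 0 _)) h4))

theorem dig_L (hp : PrmFL β p) : FL β (NI c) (fun w a => (PhiS (p w) (phi0 w)).dig a) := by
  refine FL.ite (isL_const 4 _) ((FL.const 1).congr fun w x _ => ?_) (param hp.t2)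
  exact (min_eq_left (by omega)).symm

end PhiFL

open PhiFL in
theorem PhiS_FL {β : Type} (p : List β → Prm) (hp : PrmFL β p)
    (phi0 : List β → (Fin (c + 2) → ℕ) → (Fin (c + 2) → ℕ) → RI c → ℕ)
    (hphi : ∀ q : RI c, FL β (Fin (c + 2) ⊕ Fin (c + 2))
      (fun w z => phi0 w (z ∘ Sum.inl) (z ∘ Sum.inr) q)) :
    ∃ S : List β → Scheme (NI c → ℕ), SchemeFL β (NI c) S ∧
      ∀ (w : List β) (D r : ℕ), 2 < (p w).B → 0 < (p w).M → 0 < (p w).m → (p w).m < (p w).B →
        2 ^ (p w).b = (p w).B ^ Fintype.card (CI c) →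
        (∀ g x q, (∀ j, g j < (p w).B) → (∀ j, x j < (p w).B) → phi0 w g x q < (p w).B) →
        2 ^ (2 * (p w).b) ≤ w.length → (p w).B + (p w).M ^ (D + 1) ≤ w.length →
        4 * (p w).M + 4 ≤ w.length → r ≤ w.length →
        (S w).Agree (PhiS (p w) (phi0 w)) (PhiG (p w) D r) (p w).b r := by
  obtain ⟨lv, hlv, hlv'⟩ := (leafVal_on hp hphi).total
  choose f1 hf1 hf1' using fun u => (c1_on (phi0 := phi0) hp u).total
  choose f2 hf2 hf2' using fun u => (c2_on (p := p) (phi0 := phi0) u).total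
  obtain ⟨sl, hsl, hsl'⟩ := (sel_on (phi0 := phi0) hp).total
  choose kp hkp hkp' using fun u => (kap_on (phi0 := phi0) hp u).total
  let S : List β → Scheme (NI c → ℕ) := fun w =>
    { isLeaf := (PhiS (p w) (phi0 w)).isLeaf
      leafVal := lv w
      c1 := fun a u => f1 u w a
      c2 := fun a u => f2 u w a
      sel := fun a u₁ u₂ => sl w (Sum.elim a (fun t => if t then u₂ else u₁))
      kap := fun a s u => kp u w (Sum.elim a (fun _ => s))
      dig := (PhiS (p w) (phi0 w)).dig }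
  refine ⟨S, ⟨isLeaf_L (p := p) (phi0 := phi0), hlv, hf1, hf2, ?_, ?_,
    dig_L (phi0 := phi0) hp⟩, ?_⟩
  · refine hsl.congr fun w z _ => ?_
    have : Sum.elim (z ∘ Sum.inl) (fun t => if t then z (Sum.inr true) else z (Sum.inr false)) =
        z := by
      funext v
      rcases v with v | v
      · rfl
      · cases v <;> rfl
    change sl w (Sum.elim (z ∘ Sum.inl)
      (fun t => if t then z (Sum.inr true) else z (Sum.inr false))) = _
    rw [this]
  · intro u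
    refine (hkp u).congr fun w z _ => ?_
    have : Sum.elim (z ∘ Sum.inl) (fun _ => z (Sum.inr ())) = z := by
      funext v
      rcases v with v | v <;> rfl
    change kp u w (Sum.elim (z ∘ Sum.inl) (fun _ => z (Sum.inr ()))) = _
    rw [this]
  · intro w D r hB2 hM0 hm0 hmB hpw hph h1 h2 h3 h4
    have hGD : ∀ a, PhiG (p w) D r a → GD p phi0 w a := fun a ha =>
      ⟨D, r, ⟨hB2, hM0, hm0, hmB, hpw, hph, h1, h2, h3, h4⟩, ha⟩
    refine ⟨fun a _ => Iff.rfl, fun a ha _ => hlv' w a (hGD a ha),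
      fun a ha _ => funext fun u => hf1' u w a (hGD a ha),
      fun a ha _ => funext fun u => hf2' u w a (hGD a ha), fun a _ _ => rfl, ?_, ?_⟩
    · intro a ha _ u₁ hu₁ u₂ hu₂
      exact hsl' w _ ⟨hGD a ha, hu₁, hu₂⟩
    · intro a ha _ s _
      exact funext fun u => hkp' u w _ (hGD a ha)

end Pool.Agent.Helper17.UL
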