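import Pool.Agent.Helper17.UL.FLDef

set_option autoImplicit false

/-!
# U1: basic closure properties of logspace-computable functions on head positions
-/

namespace Pool.Agent.Helper17.UL

open Pool.Agent.Helper6

variable {β U V : Type}

theorem FL.congr {f g : List β → (V → ℕ) → ℕ} (hf : FL β V f)
    (h : ∀ w x, (∀ v, x v ≤ w.length + 1) → g w x = f w x) : FL β V g := by
  refine ⟨fun w x hx => by rw [h w x hx]; exact hf.bd w x hx, ?_⟩
  refine IsL.congr hf.isL ?_
  intro w z hz
  rw [h w (z ∘ Sum.inl) (fun v => hz _)]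

theorem FL.proj (v : V) : FL β V (fun _ x => x v) :=
  ⟨fun _ _ hx => hx v, IsL.eq (Sum.inr ()) (Sum.inl v)⟩

theorem FL.len : FL β V (fun w _ => w.length + 1) :=
  ⟨fun _ _ _ => le_rfl, IsL.isEnd (Sum.inr ())⟩

theorem isL_ex1 {R : List β → (V ⊕ Unit → ℕ) → Prop} {S : List β → (V → ℕ) → Prop}
    (h : IsL β (V ⊕ Unit) R)
    (hS : ∀ w x, (∀ v, x v ≤ w.length + 1) →
      (S w x ↔ ∃ t ≤ w.length + 1, R w (Sum.elim x (fun _ => t)))) : IsL β V S :=
  IsL.congr (IsL.ex1 h) hS

theorem FL.isL_graph [Finite V] {f : List β → (U → ℕ) → ℕ} [Finite U] (hf : FL β U f)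
    (e : U → V) (t : V) : IsL β V (fun w z => z t = f w (z ∘ e)) := by
  have h := IsL.subst hf.isL (Sum.elim e (fun _ => t) : U ⊕ Unit → V)
  refine IsL.congr h ?_
  intro w z _
  simp only [Function.comp_apply, Sum.elim_inr]
  rfl

theorem isL_const (c : ℕ) (v : V) : IsL β V (fun _ x => x v = c) := by
  induction c generalizing V with
  | zero => exact IsL.isZero v
  | succ c ih =>
    refine isL_ex1 (R := fun _ z => z (Sum.inr ()) = c ∧ z (Sum.inr ()) + 1 = z (Sum.inl v))
      (IsL.and (ih (Sum.inr ())) (IsL.succ _ _)) ?_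
    intro w x hx
    simp only [Sum.elim_inr, Sum.elim_inl]
    constructor
    · intro h
      exact ⟨c, by have := hx v; omega, rfl, by omega⟩
    · rintro ⟨t, -, rfl, h⟩
      omega

theorem isL_mv2 (u v : V) : IsL β V (fun w x => x v = min (x u + 1) (w.length + 1)) := by
  refine IsL.congr (IsL.mvGraph 2 u v) ?_
  intro w x _
  rw [mv_two]

theorem FL.const (c : ℕ) : FL β V (fun w _ => min c (w.length + 1)) := by
  refine ⟨fun _ _ _ => min_le_right _ _, ?_⟩
  induction c generalizing V with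
  | zero =>
    refine IsL.congr (IsL.isZero (Sum.inr ())) ?_
    intro w x _
    simp
  | succ c ih =>
    refine isL_ex1 (R := fun w z => z (Sum.inr ()) = min c (w.length + 1) ∧
      z (Sum.inl (Sum.inr ())) = min (z (Sum.inr ()) + 1) (w.length + 1))
      (IsL.and (ih (V := V ⊕ Unit)) (isL_mv2 _ _)) ?_
    intro w x hx
    simp only [Sum.elim_inr, Sum.elim_inl]
    constructor
    · intro h
      exact ⟨min c (w.length + 1), min_le_right _ _, rfl, by omega⟩
    · rintro ⟨t, -, rfl, h⟩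
      omega

theorem FL.comp [Finite U] [Finite V] {f : List β → (U → ℕ) → ℕ}
    {g : U → List β → (V → ℕ) → ℕ} (hf : FL β U f) (hg : ∀ u, FL β V (g u)) :
    FL β V (fun w x => f w (fun u => g u w x)) := by
  refine ⟨fun w x hx => hf.bd w _ (fun u => (hg u).bd w x hx), ?_⟩
  have h := IsL.ex (V := V ⊕ Unit) (U := U) (IsL.and
    (IsL.bigAnd (fun u => (hg u).isL_graph (V := (V ⊕ Unit) ⊕ U) (fun v => Sum.inl (Sum.inl v))
      (Sum.inr u)))
    (hf.isL_graph (V := (V ⊕ Unit) ⊕ U) (fun u => Sum.inr u) (Sum.inl (Sum.inr ()))))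
  refine IsL.congr h ?_
  intro w z hz
  constructor
  · intro ht
    exact ⟨fun u => g u w (z ∘ Sum.inl), fun u => (hg u).bd w _ (fun v => hz _),
      fun u => rfl, ht⟩
  · rintro ⟨t, -, h1, h2⟩
    have h3 : t = fun u => g u w (z ∘ Sum.inl) := funext h1
    subst h3
    exact h2

theorem isL_comp [Finite U] [Finite V] {R : List β → (U → ℕ) → Prop}
    {g : U → List β → (V → ℕ) → ℕ} (hR : IsL β U R) (hg : ∀ u, FL β V (g u)) :
    IsL β V (fun w x => R w (fun u => g u w x)) := by
  have h := IsL.ex (V := V) (U := U) (IsL.and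
    (IsL.bigAnd (fun u => (hg u).isL_graph (V := V ⊕ U) (fun v => Sum.inl v)
      (Sum.inr u)))
    (IsL.lift hR (Sum.inr : U → V ⊕ U) Sum.inr_injective))
  refine IsL.congr h ?_
  intro w x hx
  constructor
  · intro ht
    exact ⟨fun u => g u w x, fun u => (hg u).bd w _ hx, fun u => rfl, ht⟩
  · rintro ⟨t, -, h1, h2⟩
    have h3 : t = fun u => g u w x := funext h1
    subst h3
    exact h2

theorem FL.ite [Finite V] {R : List β → (V → ℕ) → Prop} [∀ w x, Decidable (R w x)]
    {f g : List β → (V → ℕ) → ℕ} (hR : IsL β V R) (hf : FL β V f) (hg : FL β V g) :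
    FL β V (fun w x => if R w x then f w x else g w x) := by
  refine ⟨?_, ?_⟩
  · intro w x hx
    split_ifs
    · exact hf.bd w x hx
    · exact hg.bd w x hx
  · have hR' := IsL.lift hR (Sum.inl : V → V ⊕ Unit) Sum.inl_injective
    refine IsL.congr (IsL.or (IsL.and hR' hf.isL) (IsL.and (IsL.not hR') hg.isL)) ?_
    intro w z _
    by_cases h : R w (z ∘ Sum.inl)
    · simp [h]
    · simp [h]

/-- a function determined by a relation -/
theorem FL.of_unique [Finite V] {f : List β → (V → ℕ) → ℕ} {R : List β → (V ⊕ Unit → ℕ) → Prop}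
    (hR : IsL β (V ⊕ Unit) R) (hbd : ∀ w x, (∀ v, x v ≤ w.length + 1) → f w x ≤ w.length + 1)
    (h : ∀ w x t, (∀ v, x v ≤ w.length + 1) → t ≤ w.length + 1 →
      (R w (Sum.elim x (fun _ => t)) ↔ t = f w x)) : FL β V f := by
  refine ⟨hbd, IsL.congr hR ?_⟩
  intro w z hz
  have h1 := h w (z ∘ Sum.inl) (z (Sum.inr ())) (fun v => hz _) (hz _)
  have h2 : Sum.elim (z ∘ Sum.inl) (fun _ : Unit => z (Sum.inr ())) = z := by
    funext v
    rcases v with v | v
    · rfl
    · rfl
  rw [h2] at h1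
  exact h1.symm

theorem isL_eq {f g : List β → (V → ℕ) → ℕ} [Finite V] (hf : FL β V f) (hg : FL β V g) :
    IsL β V (fun w x => f w x = g w x) := by
  refine isL_ex1 (IsL.and hf.isL hg.isL) ?_
  intro w x hx
  constructor
  · intro h
    exact ⟨f w x, hf.bd w x hx, rfl, h⟩
  · rintro ⟨t, -, h1, h2⟩
    exact h1.symm.trans h2

/-- the step relation of a bounded iteration: state `y`, parameters `x`, counter -/
def IterRel (F : U → List β → (U ⊕ V → ℕ) → ℕ) (w : List β)
    (z : ((U ⊕ V) ⊕ Unit) ⊕ ((U ⊕ V) ⊕ Unit) → ℕ) : Prop :=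
  (∀ u, z (Sum.inr (Sum.inl (Sum.inl u))) = F u w (fun s => z (Sum.inl (Sum.inl s)))) ∧
  (∀ v, z (Sum.inr (Sum.inl (Sum.inr v))) = z (Sum.inl (Sum.inl (Sum.inr v)))) ∧
  z (Sum.inr (Sum.inr ())) + 1 = z (Sum.inl (Sum.inr ()))

/-- the state of a bounded iteration -/
def iterState (y : U → ℕ) (x : V → ℕ) (i : ℕ) : (U ⊕ V) ⊕ Unit → ℕ :=
  Sum.elim (Sum.elim y x) (fun _ => i)

theorem iterRel_state (F : U → List β → (U ⊕ V → ℕ) → ℕ) (w : List β) (y : U → ℕ) (x : V → ℕ)
    (i : ℕ) (s : (U ⊕ V) ⊕ Unit → ℕ) :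
    IterRel F w (Sum.elim (iterState y x (i + 1)) s) ↔
      s = iterState (fun u => F u w (Sum.elim y x)) x i := by
  constructor
  · rintro ⟨h1, h2, h3⟩
    funext v
    rcases v with (v | v) | v
    · exact h1 v
    · exact h2 v
    · have h4 : s (Sum.inr ()) + 1 = i + 1 := h3
      have : s (Sum.inr ()) = i := by omega
      exact this
  · rintro rfl
    exact ⟨fun u => rfl, fun v => rfl, rfl⟩

theorem iterRel_zero (F : U → List β → (U ⊕ V → ℕ) → ℕ) (w : List β) (y : U → ℕ) (x : V → ℕ)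
    (s : (U ⊕ V) ⊕ Unit → ℕ) : ¬ IterRel F w (Sum.elim (iterState y x 0) s) := by
  rintro ⟨-, -, h3⟩
  have h4 : s (Sum.inr ()) + 1 = 0 := h3
  omega

theorem state_eq (s : (U ⊕ V) ⊕ Unit → ℕ) : s = iterState (fun u => s (Sum.inl (Sum.inl u)))
    (fun v => s (Sum.inl (Sum.inr v))) (s (Sum.inr ())) := by
  funext v
  rcases v with (v | v) | v <;> rfl

theorem iterRel_fun (F : U → List β → (U ⊕ V → ℕ) → ℕ) (w : List β)
    (s s1 s2 : (U ⊕ V) ⊕ Unit → ℕ) (h1 : IterRel F w (Sum.elim s s1))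
    (h2 : IterRel F w (Sum.elim s s2)) : s1 = s2 := by
  rw [state_eq s] at h1 h2
  rcases hi : s (Sum.inr ()) with _ | i
  · rw [hi] at h1
    exact absurd h1 (iterRel_zero F w _ _ _)
  · rw [hi] at h1 h2
    rw [(iterRel_state F w _ _ _ _).1 h1, (iterRel_state F w _ _ _ _).1 h2]

theorem isL_iterRel [Finite U] [Finite V] {F : U → List β → (U ⊕ V → ℕ) → ℕ}
    (hF : ∀ u, FL β (U ⊕ V) (F u)) :
    IsL β (((U ⊕ V) ⊕ Unit) ⊕ ((U ⊕ V) ⊕ Unit)) (IterRel F) := by
  refine IsL.and (IsL.bigAnd fun u => (hF u).isL_graph (fun s => Sum.inl (Sum.inl s)) _)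
    (IsL.and (IsL.bigAnd fun v => IsL.eq _ _) (IsL.succ _ _))

theorem reach_iter {F : U → List β → (U ⊕ V → ℕ) → ℕ} (hF : ∀ u, FL β (U ⊕ V) (F u))
    {w : List β} {x : V → ℕ} (hx : ∀ v, x v ≤ w.length + 1) (n : ℕ) (hn : n ≤ w.length + 1) :
    ∀ y : U → ℕ, (∀ u, y u ≤ w.length + 1) → ∀ y' x' : _,
    (Relation.ReflTransGen (Bd (IterRel F) w) (iterState y x n) (iterState y' x' 0) ↔
      y' = (fun (y : U → ℕ) (u : U) => F u w (Sum.elim y x))^[n] y ∧ x' = x) := by
  induction n with
  | zero =>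
    intro y hy y' x'
    constructor
    · intro h
      rcases Relation.ReflTransGen.cases_head h with h | ⟨c, h1, -⟩
      · refine ⟨?_, ?_⟩
        · funext u
          exact (congrFun h (Sum.inl (Sum.inl u))).symm
        · funext v
          exact (congrFun h (Sum.inl (Sum.inr v))).symm
      · exact absurd h1.2.2 (iterRel_zero F w _ _ _)
    · rintro ⟨rfl, rfl⟩
      exact Relation.ReflTransGen.refl
  | succ n ih =>
    intro y hy y' x'
    have hyx : ∀ s, (Sum.elim y x : U ⊕ V → ℕ) s ≤ w.length + 1 := by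
      rintro (s | s)
      · exact hy s
      · exact hx s
    have hy1 : ∀ u, F u w (Sum.elim y x) ≤ w.length + 1 := fun u => (hF u).bd w _ hyx
    rw [Function.iterate_succ_apply]
    rw [← ih (by omega) (fun u => F u w (Sum.elim y x)) hy1 y' x']
    constructor
    · intro h
      rcases Relation.ReflTransGen.cases_head h with h | ⟨c, h1, h2⟩
      · have := congrFun h (Sum.inr ())
        exact absurd this (Nat.succ_ne_zero n)
      · rw [(iterRel_state F w _ _ _ _).1 h1.2.2] at h2
        exact h2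
    · intro h
      refine Relation.ReflTransGen.head ⟨?_, ?_, (iterRel_state F w _ _ _ _).2 rfl⟩ h
      · rintro ((v | v) | v)
        · exact hy v
        · exact hx v
        · exact hn
      · rintro ((v | v) | v)
        · exact hy1 v
        · exact hx v
        · have : n ≤ w.length + 1 := by omega
          exact this

theorem iter_bd {F : U → List β → (U ⊕ V → ℕ) → ℕ} (hF : ∀ u, FL β (U ⊕ V) (F u))
    {w : List β} {x : V → ℕ} (hx : ∀ v, x v ≤ w.length + 1) (n : ℕ) :
    ∀ y : U → ℕ, (∀ u, y u ≤ w.length + 1) →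
      ∀ u, ((fun (y : U → ℕ) (u : U) => F u w (Sum.elim y x))^[n] y) u ≤ w.length + 1 := by
  induction n with
  | zero => intro y hy; exact hy
  | succ n ih =>
    intro y hy
    rw [Function.iterate_succ_apply]
    refine ih _ fun u => (hF u).bd w _ ?_
    rintro (s | s)
    · exact hy s
    · exact hx s

/-- bounded iteration; the number of iterations is a function too -/
theorem FL.iter [Finite U] [Finite V] {F : U → List β → (U ⊕ V → ℕ) → ℕ}
    (hF : ∀ u, FL β (U ⊕ V) (F u)) {init : U → List β → (V → ℕ) → ℕ}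
    (hi : ∀ u, FL β V (init u)) {c : List β → (V → ℕ) → ℕ} (hc : FL β V c) (u : U) :
    FL β V (fun w x => ((fun (y : U → ℕ) (u : U) => F u w (Sum.elim y x))^[c w x]
      (fun u => init u w x)) u) := by
  have hdtc := IsL.dtc (isL_iterRel hF)
    (fun w s s1 s2 h1 h2 => iterRel_fun F w s s1 s2 h1.2.2 h2.2.2)
  -- the relation between `x` and the result
  have hR : IsL β (V ⊕ Unit) (fun w z => ∃ y : U → ℕ, (∀ u, y u ≤ w.length + 1) ∧
      (Relation.ReflTransGen (Bd (IterRel F) w)
        (iterState (fun u => init u w (z ∘ Sum.inl)) (z ∘ Sum.inl) (c w (z ∘ Sum.inl)))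
        (iterState y (z ∘ Sum.inl) 0) ∧ z (Sum.inr ()) = y u)) := by
    refine IsL.congr (IsL.ex (V := V ⊕ Unit) (U := U) (R := fun w z =>
      Relation.ReflTransGen (Bd (IterRel F) w)
        (iterState (fun u => init u w (z ∘ Sum.inl ∘ Sum.inl)) (z ∘ Sum.inl ∘ Sum.inl)
          (c w (z ∘ Sum.inl ∘ Sum.inl)))
        (iterState (z ∘ Sum.inr) (z ∘ Sum.inl ∘ Sum.inl) 0) ∧
      z (Sum.inl (Sum.inr ())) = z (Sum.inr u)) ?_) ?_
    · refine IsL.and ?_ (IsL.eq _ _)
      refine IsL.congr (isL_comp (V := (V ⊕ Unit) ⊕ U) hdtc (g := fun s w z => match s with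
        | Sum.inl (Sum.inl (Sum.inl u)) => init u w (z ∘ Sum.inl ∘ Sum.inl)
        | Sum.inl (Sum.inl (Sum.inr v)) => z (Sum.inl (Sum.inl v))
        | Sum.inl (Sum.inr _) => c w (z ∘ Sum.inl ∘ Sum.inl)
        | Sum.inr (Sum.inl (Sum.inl u)) => z (Sum.inr u)
        | Sum.inr (Sum.inl (Sum.inr v)) => z (Sum.inl (Sum.inl v))
        | Sum.inr (Sum.inr _) => min 0 (w.length + 1)) ?_) ?_
      · rintro (((s | s) | s) | ((s | s) | s))
        · exact FL.comp (hi s) (fun v => FL.proj _)
        · exact FL.proj _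
        · exact FL.comp hc (fun v => FL.proj _)
        · exact FL.proj _
        · exact FL.proj _
        · exact FL.const 0
      · intro w z _
        have e1 : (fun s : ((U ⊕ V) ⊕ Unit) ⊕ ((U ⊕ V) ⊕ Unit) => (match s with
          | Sum.inl (Sum.inl (Sum.inl u)) => init u w (z ∘ Sum.inl ∘ Sum.inl)
          | Sum.inl (Sum.inl (Sum.inr v)) => z (Sum.inl (Sum.inl v))
          | Sum.inl (Sum.inr _) => c w (z ∘ Sum.inl ∘ Sum.inl)
          | Sum.inr (Sum.inl (Sum.inl u)) => z (Sum.inr u)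
          | Sum.inr (Sum.inl (Sum.inr v)) => z (Sum.inl (Sum.inl v))
          | Sum.inr (Sum.inr _) => min 0 (w.length + 1) : ℕ)) ∘ Sum.inl =
          iterState (fun u => init u w (z ∘ Sum.inl ∘ Sum.inl)) (z ∘ Sum.inl ∘ Sum.inl)
            (c w (z ∘ Sum.inl ∘ Sum.inl)) := by
          funext s
          rcases s with (s | s) | s <;> rfl
        have e2 : (fun s : ((U ⊕ V) ⊕ Unit) ⊕ ((U ⊕ V) ⊕ Unit) => (match s with
          | Sum.inl (Sum.inl (Sum.inl u)) => init u w (z ∘ Sum.inl ∘ Sum.inl)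
          | Sum.inl (Sum.inl (Sum.inr v)) => z (Sum.inl (Sum.inl v))
          | Sum.inl (Sum.inr _) => c w (z ∘ Sum.inl ∘ Sum.inl)
          | Sum.inr (Sum.inl (Sum.inl u)) => z (Sum.inr u)
          | Sum.inr (Sum.inl (Sum.inr v)) => z (Sum.inl (Sum.inl v))
          | Sum.inr (Sum.inr _) => min 0 (w.length + 1) : ℕ)) ∘ Sum.inr =
          iterState (z ∘ Sum.inr) (z ∘ Sum.inl ∘ Sum.inl) 0 := by
          funext s
          rcases s with (s | s) | s
          · rfl
          · rfl
          · exact Nat.zero_min _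
        rw [e1, e2]
    · intro w z _
      rfl
  refine FL.of_unique hR ?_ ?_
  · intro w x hx
    exact iter_bd hF hx _ _ (fun u => (hi u).bd w x hx) u
  · intro w x t hx ht
    have hbd := fun u => (hi u).bd w x hx
    constructor
    · rintro ⟨y, hy, h1, h2⟩
      have h3 := ((reach_iter hF hx (c w x) (hc.bd w x hx) _ hbd y x).1 h1).1
      have h4 : t = y u := h2
      rw [h4, h3]
    · intro h
      refine ⟨_, iter_bd hF hx (c w x) _ hbd, ?_, h⟩
      exact (reach_iter hF hx (c w x) (hc.bd w x hx) _ hbd _ x).2 ⟨rfl, rfl⟩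

/-- bounded iteration where the step may use the loop counter (`x (Sum.inr (Sum.inr ()))`) -/
theorem FL.iterIdx [Finite U] [Finite V] {F : U → List β → (U ⊕ (V ⊕ Unit) → ℕ) → ℕ}
    (hF : ∀ u, FL β (U ⊕ (V ⊕ Unit)) (F u)) {init : U → List β → (V → ℕ) → ℕ}
    (hi : ∀ u, FL β V (init u)) {c : List β → (V → ℕ) → ℕ} (hc : FL β V c) (u : U) :
    FL β V (fun w x => (Nat.rec (motive := fun _ => U → ℕ) (fun u => init u w x)
      (fun i y u => F u w (Sum.elim y (Sum.elim x (fun _ => i)))) (c w x)) u) := by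
  let G : U ⊕ Unit → List β → ((U ⊕ Unit) ⊕ V → ℕ) → ℕ := fun s w z => match s with
    | Sum.inl u => F u w (Sum.elim (fun u' => z (Sum.inl (Sum.inl u')))
        (Sum.elim (fun v => z (Sum.inr v)) (fun _ => z (Sum.inl (Sum.inr ())))))
    | Sum.inr _ => min (z (Sum.inl (Sum.inr ())) + 1) (w.length + 1)
  have hG : ∀ s, FL β ((U ⊕ Unit) ⊕ V) (G s) := by
    rintro (s | s)
    · refine FL.congr (FL.comp (hF s) (g := fun t _ z => match t with
        | Sum.inl u' => z (Sum.inl (Sum.inl u'))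
        | Sum.inr (Sum.inl v) => z (Sum.inr v)
        | Sum.inr (Sum.inr _) => z (Sum.inl (Sum.inr ()))) ?_) ?_
      · rintro (t | (t | t)) <;> exact FL.proj _
      · intro w z _
        simp only [G]
        congr 1
        funext t
        rcases t with t | (t | t) <;> rfl
    · exact ⟨fun w z _ => min_le_right _ _, isL_mv2 _ _⟩
  let ini : U ⊕ Unit → List β → (V → ℕ) → ℕ := fun s w x => match s with
    | Sum.inl u => init u w x
    | Sum.inr _ => min 0 (w.length + 1)
  have hini : ∀ s, FL β V (ini s) := by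
    rintro (s | s)
    · exact hi s
    · exact FL.const 0
  refine FL.congr (FL.iter hG hini hc (Sum.inl u)) ?_
  intro w x hx
  have key : ∀ n, n ≤ w.length + 1 →
      (fun (y : U ⊕ Unit → ℕ) (s : U ⊕ Unit) => G s w (Sum.elim y x))^[n]
        (fun s => ini s w x) = Sum.elim (Nat.rec (motive := fun _ => U → ℕ)
          (fun u => init u w x) (fun i y u => F u w (Sum.elim y (Sum.elim x (fun _ => i)))) n)
          (fun _ => n) := by
    intro n
    induction n with
    | zero =>
      intro _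
      funext s
      rcases s with s | s
      · rfl
      · exact Nat.zero_min _
    | succ n ih =>
      intro hn
      rw [Function.iterate_succ_apply', ih (by omega)]
      funext s
      rcases s with s | s
      · rfl
      · exact min_eq_left hn
  rw [key (c w x) (hc.bd w x hx)]
  rfl

/-- tables on bounded arguments -/
theorem FL.table [Finite V] (K : ℕ) (g : (V → ℕ) → ℕ) [∀ x : V → ℕ, Decidable (∀ v, x v < K)] :
    FL β V (fun w x => if ∀ v, x v < K then min (g x) (w.length + 1) else 0) := by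
  have hA : IsL β (V ⊕ Unit) (fun w z => ∃ a : V → Fin K,
      (∀ v, z (Sum.inl v) = (a v : ℕ)) ∧
        z (Sum.inr ()) = min (g fun v => (a v : ℕ)) (w.length + 1)) :=
    IsL.bigOr fun a => IsL.and (IsL.bigAnd fun v => isL_const _ _) (FL.const _).isL
  have hB : IsL β (V ⊕ Unit) (fun w z => ∃ a : V → Fin K,
      (∀ v, z (Sum.inl v) = (a v : ℕ))) :=
    IsL.bigOr fun a => IsL.bigAnd fun v => isL_const _ _
  refine FL.of_unique (IsL.or hA (IsL.and (IsL.not hB) (IsL.isZero (Sum.inr ())))) ?_ ?_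
  · intro w x _
    split_ifs
    · exact min_le_right _ _
    · exact Nat.zero_le _
  · intro w x t _ _
    by_cases h : ∀ v, x v < K
    · rw [if_pos h]
      constructor
      · rintro (⟨a, h1, h2⟩ | ⟨h1, -⟩)
        · have h3 : (fun v => (a v : ℕ)) = x := by
            funext v
            exact (h1 v).symm
          rw [h3] at h2
          exact h2
        · exact absurd ⟨fun v => ⟨x v, h v⟩, fun v => rfl⟩ h1
      · intro ht
        exact Or.inl ⟨fun v => ⟨x v, h v⟩, fun v => rfl, ht⟩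
    · rw [if_neg h]
      constructor
      · rintro (⟨a, h1, -⟩ | ⟨-, h1⟩)
        · exfalso
          apply h
          intro v
          have h2 : x v = (a v : ℕ) := h1 v
          rw [h2]
          exact (a v).2
        · exact h1
      · intro ht
        refine Or.inr ⟨?_, ht⟩
        rintro ⟨a, h1⟩
        apply h
        intro v
        have h2 : x v = (a v : ℕ) := h1 v
        rw [h2]
        exact (a v).2

end Pool.Agent.Helper17.UL
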