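import Pool.Agent.Helper32.UL.FLon

set_option autoImplicit false

/-!
# U7: the scheme `PhiS` is computable
-/

namespace Pool.Agent.Helper17.UL

open Pool.Agent.Helper17.SL Pool.Agent.Helper6

variable {c : ℕ}

/-- Computable parameters. -/
structure PrmFL (β : Type) (p : List β → Prm) : Prop where
  B : FL β Empty (fun w _ => (p w).B)
  b : FL β Empty (fun w _ => (p w).b)
  M : FL β Empty (fun w _ => (p w).M)
  m : FL β Empty (fun w _ => (p w).m)
  t2 : FL β Empty (fun w _ => (p w).t2)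

namespace PhiFL

theorem param {β V : Type} [Finite V] {f : List β → ℕ} (h : FL β Empty (fun w _ => f w)) :
    FL β V (fun w _ => f w) :=
  FL.comp (f := fun w _ => f w) h (g := fun u => u.elim) (fun u => u.elim)

/-! ### sizes -/

theorem card_RI_le (c : ℕ) : Fintype.card (RI c) ≤ Fintype.card (CI c) := by
  refine Fintype.card_le_of_injective (fun r : RI c => match r with
    | .tag => CI.ft
    | .x i => CI.fx i
    | .u i => CI.fu i) ?_
  intro a b h
  cases a <;> cases b <;> simp_all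

theorem nPopped_lt {B : ℕ} (hB : 2 < B) {v : Fin (c + 2) → ℕ} (hv : ∀ i, v i < B) (q : RI c) :
    nPopped v q < B := by
  cases q with
  | tag => simp only [nPopped]; omega
  | x i => exact hv i
  | u i => simp only [nPopped]; omega

theorem nInit_lt {B : ℕ} (hB : 2 < B) {g x : Fin (c + 2) → ℕ} (hg : ∀ i, g i < B)
    (hx : ∀ i, x i < B) (l : ℕ) (q : CI c) : nInit g x l q < B := by
  cases q <;> simp only [nInit] <;> (try split_ifs) <;> first | omega | exact hx _ | exact hg _

theorem nComb_lt {B : ℕ} (hB : 2 < B) {P m l : ℕ} {g x : Fin (c + 2) → ℕ} (hx : ∀ i, x i < B)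
    (hm : m < B) {a : CI c → ℕ} (ha : ∀ q, a q < B) {r : RI c → ℕ} (hr : ∀ q, r q < B) (q : CI c) :
    nComb P g x m l a r q < B := by
  have hlen := ha .len
  unfold nComb
  split_ifs <;> cases q <;> (try dsimp only) <;> (try split_ifs) <;>
    first | exact ha _ | exact hx _ | exact hr _ | omega

/-! ### the combination function -/

variable {β V : Type} [Finite V] {D : List β → (V → ℕ) → Prop}

theorem isLon_blk {P t s : List β → (V → ℕ) → ℕ} (hP : FLon β V D P) (ht : FLon β V D t)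
    (hs : FLon β V D s) (hb : ∀ w x, D w x → blk (P w x) (t w x) ≤ w.length + 1) :
    IsLon β V D (fun w x => blk (P w x) (t w x) ≤ s w x) := by
  have hP' : ∀ w x, D w x → P w x = 0 ∨ t w x / P w x + 1 ≤ w.length + 1 := by
    intro w x hD
    rcases Nat.eq_zero_or_pos (P w x) with h | h
    · exact Or.inl h
    · right
      have := hb w x hD
      unfold blk at this
      exact (Nat.le_mul_of_pos_right _ h).trans this
  have h1 : FLon β V D (fun w x => blk (P w x) (t w x)) := by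
    classical
    refine FLon.congr (f := fun w x => if P w x = 0 then 0 else
      (t w x / P w x + 1) * P w x) ?_ ?_
    · refine FLon.ite (IsLon.eqConst 0 hP) FLon.zero ?_
      refine FLon.mul (FLon.succ ((ht.div hP).mono fun _ _ h => h.1) ?_)
        (hP.mono fun _ _ h => h.1) ?_
      · intro w x _ hD
        rcases hP' w x hD.1 with h | h
        · exact absurd h hD.2
        · exact h
      · intro w x _ hD
        exact hb w x hD.1
    · intro w x _ _
      split_ifs with h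
      · simp [blk, h]
      · rfl
  exact IsLon.le h1 hs

theorem flon_comb {P m l : List β → (V → ℕ) → ℕ} {g x : List β → (V → ℕ) → Fin (c + 2) → ℕ}
    {a : List β → (V → ℕ) → CI c → ℕ} {r : List β → (V → ℕ) → RI c → ℕ}
    (hP : FLon β V D P) (hm : FLon β V D m) (hl : FLon β V D l)
    (hg : ∀ i, FLon β V D (fun w z => g w z i)) (hx : ∀ i, FLon β V D (fun w z => x w z i))
    (ha : ∀ q, FLon β V D (fun w z => a w z q))
    (hr : ∀ q, FLon β V D (fun w z => r w z q))
    (hbg : ∀ w z, D w z → blk (P w z) (g w z 0) ≤ w.length + 1)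
    (hbx : ∀ w z, D w z → blk (P w z) (x w z 0) ≤ w.length + 1)
    (h2 : ∀ w z, D w z → 2 ≤ w.length + 1)
    (hlen : ∀ w z, D w z → a w z .len + 1 ≤ w.length + 1)
    (hl1 : ∀ w z, D w z → l w z + 1 ≤ w.length + 1) (q : CI c) :
    FLon β V D (fun w z => nComb (P w z) (g w z) (x w z) (m w z) (l w z) (a w z) (r w z) q) := by
  have e0 := fun q => IsLon.eqConst 0 (ha q)
  have e1 := fun q => IsLon.eqConst 1 (ha q)
  have r0 := fun q => IsLon.eqConst 0 (hr q)
  have r1 := fun q => IsLon.eqConst 1 (hr q)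
  have c0 : FLon β V D (fun _ _ => 0) := FLon.zero
  have c1 : FLon β V D (fun _ _ => 1) := FLon.one
  have c2 : FLon β V D (fun _ _ => 2) := FLon.const 2 h2
  have hl' : FLon β V D (fun w z => l w z + 1) := hl.succ fun w z _ hD => hl1 w z hD
  have ha' : FLon β V D (fun w z => a w z .len + 1) :=
    (ha .len).succ fun w z _ hD => hlen w z hD
  unfold nComb
  refine FLon.ite' (e0 .ft).not (ha q) ?_
  refine FLon.ite' ((e0 .ph).and (isLon_blk hP (hg 0) (ha _) hbg)) ?_ ?_
  · cases q
    case ph => exact c1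
    case cur i => exact hx i
    all_goals exact ha _
  refine FLon.ite' ((e1 .ph).and (isLon_blk hP (hx 0) (ha _) hbx)) ?_ ?_
  · cases q
    case ft => exact c2
    case fx i => exact ha _
    case fu i => exact FLon.ite' (e0 .bt) (ha _) (ha _)
    all_goals exact ha _
  refine FLon.ite' (r0 .tag) ?_ ?_
  · cases q
    case ft => exact c1
    case fx i => exact ha _
    case fu i => exact c0
    all_goals exact ha _
  refine FLon.ite' (r1 .tag) ?_ ?_
  · cases q
    case cur i => exact hr _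
    case len => exact (ha .len).pred
    case et => exact FLon.ite' (IsLon.eq hl' (ha .len)) c0 (ha _)
    case en i => exact FLon.ite' (IsLon.eq hl' (ha .len)) c0 (ha _)
    all_goals exact ha _
  · cases q
    case cur i => exact hr _
    case bt => exact FLon.ite' (e1 .ph) c1 c0
    case best i =>
      exact FLon.ite' (e1 .ph) (FLon.ite' ((e0 .bt).or (IsLon.le (hr (.u 1)) (ha (.best 1))))
        (hr _) (ha _)) c0
    case len => exact ha'.min hm
    case et => exact FLon.ite' (IsLon.eq hl (ha .len)) c1 (ha _)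
    case en i => exact FLon.ite' (IsLon.eq hl (ha .len)) (hr _) (ha _)
    all_goals exact ha _

omit [Finite V] in
theorem flon_popped {v : List β → (V → ℕ) → Fin (c + 2) → ℕ}
    (hv : ∀ i, FLon β V D (fun w z => v w z i))
    (q : RI c) : FLon β V D (fun w z => nPopped (v w z) q) := by
  cases q
  case tag => exact FLon.one
  case x i => exact hv i
  case u i => exact FLon.zero

theorem flon_init {l : List β → (V → ℕ) → ℕ} {g x : List β → (V → ℕ) → Fin (c + 2) → ℕ}
    (hl : FLon β V D l) (hg : ∀ i, FLon β V D (fun w z => g w z i))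
    (hx : ∀ i, FLon β V D (fun w z => x w z i)) (q : CI c) :
    FLon β V D (fun w z => nInit (g w z) (x w z) (l w z) q) := by
  have c0 : FLon β V D (fun _ _ => 0) := FLon.zero
  have c1 : FLon β V D (fun _ _ => 1) := FLon.one
  cases q
  case ph => exact FLon.ite' (IsLon.eq (hg 0) (hx 0)) c1 c0
  case cur i => exact FLon.ite' (IsLon.eq (hg 0) (hx 0)) (hx i) (hg i)
  case len => exact c1
  case et => exact FLon.ite' (IsLon.eqConst 0 hl) c1 c0
  case en i => exact FLon.ite' (IsLon.eqConst 0 hl) (hg i) c0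
  all_goals exact c0

omit [Finite V] in
theorem flon_mkN {tag d i l s : List β → (V → ℕ) → ℕ} {g x : List β → (V → ℕ) → Fin (c + 2) → ℕ}
    (ht : FLon β V D tag) (hd : FLon β V D d) (hi : FLon β V D i) (hl : FLon β V D l)
    (hs : FLon β V D s) (hg : ∀ i, FLon β V D (fun w z => g w z i))
    (hx : ∀ i, FLon β V D (fun w z => x w z i)) (q : NI c) :
    FLon β V D (fun w z => mkN (tag w z) (d w z) (i w z) (l w z) (s w z) (g w z) (x w z) q) := by
  cases q
  case tag => exact ht
  case d => exact hd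
  case i => exact hi
  case l => exact hl
  case s => exact hs
  case g j => exact hg j
  case x j => exact hx j

theorem iteApp {W : Type} {R : List β → (V → ℕ) → Prop} [∀ w x, Decidable (R w x)]
    {f g : List β → (V → ℕ) → W → ℕ} (u : W) (hR : IsLon β V D R)
    (hf : FLon β V D (fun w x => f w x u)) (hg : FLon β V D (fun w x => g w x u)) :
    FLon β V D (fun w x => (if R w x then f w x else g w x) u) :=
  (FLon.ite' hR hf hg).congr fun w x _ _ => by split_ifs <;> rfl

/-! ### the domain -/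

/-- The size hypotheses. -/
structure Sz {β : Type} (p : List β → Prm)
    (phi0 : List β → (Fin (c + 2) → ℕ) → (Fin (c + 2) → ℕ) → RI c → ℕ) (w : List β)
    (D r : ℕ) : Prop where
  B2 : 2 < (p w).B
  M0 : 0 < (p w).M
  m0 : 0 < (p w).m
  mB : (p w).m < (p w).B
  pw : 2 ^ (p w).b = (p w).B ^ Fintype.card (CI c)
  ph : ∀ g x q, (∀ j, g j < (p w).B) → (∀ j, x j < (p w).B) → phi0 w g x q < (p w).B
  h1 : 2 ^ (2 * (p w).b) ≤ w.length
  h2 : (p w).B + (p w).M ^ (D + 1) ≤ w.length
  h3 : 4 * (p w).M + 4 ≤ w.length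
  h4 : r ≤ w.length

/-- The domain. -/
def GD {β : Type} (p : List β → Prm)
    (phi0 : List β → (Fin (c + 2) → ℕ) → (Fin (c + 2) → ℕ) → RI c → ℕ) (w : List β)
    (a : NI c → ℕ) : Prop :=
  ∃ D r, Sz p phi0 w D r ∧ PhiG (p w) D r a

section

variable {p : List β → Prm} {phi0 : List β → (Fin (c + 2) → ℕ) → (Fin (c + 2) → ℕ) → RI c → ℕ}
  {w : List β} {a : NI c → ℕ}

omit [Finite V]

theorem GD.B0 (h : GD p phi0 w a) : 0 < (p w).B := by
  obtain ⟨D, r, h, -⟩ := h
  have := h.B2; omega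

theorem GD.B2 (h : GD p phi0 w a) : 2 < (p w).B := by
  obtain ⟨D, r, h, -⟩ := h
  exact h.B2

theorem GD.two (h : GD p phi0 w a) : 2 ≤ w.length + 1 := by
  obtain ⟨D, r, h, -⟩ := h
  have := h.h3; omega

theorem GD.four (h : GD p phi0 w a) : 4 ≤ w.length + 1 := by
  obtain ⟨D, r, h, -⟩ := h
  have := h.h3; omega

theorem GD.fourM (h : GD p phi0 w a) : 4 * (p w).M + 4 ≤ w.length + 1 := by
  obtain ⟨D, r, h, -⟩ := h
  have := h.h3; omega

theorem GD.pow2b (h : GD p phi0 w a) : 2 ^ (p w).b ≤ w.length + 1 := by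
  obtain ⟨D, r, h, -⟩ := h
  have h1 := h.h1
  have h2 : 2 ^ (p w).b ≤ 2 ^ (2 * (p w).b) := Nat.pow_le_pow_right (by norm_num) (by omega)
  omega

theorem GD.cardCI (h : GD p phi0 w a) : (p w).B ^ Fintype.card (CI c) ≤ w.length + 1 := by
  have h1 := h.pow2b
  obtain ⟨D, r, h, -⟩ := h
  rw [← h.pw]; exact h1

theorem GD.cardRI (h : GD p phi0 w a) : (p w).B ^ Fintype.card (RI c) ≤ w.length + 1 :=
  (Nat.pow_le_pow_right h.B0 (card_RI_le c)).trans h.cardCI

theorem GD.lt_l (h : GD p phi0 w a) : a .l + 1 ≤ w.length + 1 := by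
  obtain ⟨D, r, h, h'⟩ := h
  have h1 := h'.2.2.2.1
  have h2 := h.h4
  omega

theorem GD.g (h : GD p phi0 w a) (j : Fin (c + 2)) : a (.g j) < (p w).B := by
  obtain ⟨D, r, h, h'⟩ := h
  exact (h'.2.2.2.2.2 j).1

theorem GD.x (h : GD p phi0 w a) (j : Fin (c + 2)) : a (.x j) < (p w).B := by
  obtain ⟨D, r, h, h'⟩ := h
  exact (h'.2.2.2.2.2 j).2

theorem GD.m (h : GD p phi0 w a) : (p w).m < (p w).B := by
  obtain ⟨D, r, h, h'⟩ := h
  exact h.mB

theorem GD.phi (h : GD p phi0 w a) (q : RI c) :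
    phi0 w (fun j => a (.g j)) (fun j => a (.x j)) q < (p w).B := by
  have h1 := h.g
  have h2 := h.x
  obtain ⟨D, r, h, h'⟩ := h
  exact h.ph _ _ _ h1 h2

theorem GD.powM (h : GD p phi0 w a) : (p w).M ^ (a .d + 1) ≤ w.length + 1 ∧
    (p w).M ^ a .d ≤ w.length + 1 := by
  obtain ⟨D, r, h, h'⟩ := h
  have h1 : (p w).M ^ (a .d + 1) ≤ (p w).M ^ (D + 1) :=
    Nat.pow_le_pow_right h.M0 (by have := h'.2.1; omega)
  have h2 : (p w).M ^ a .d ≤ (p w).M ^ (D + 1) :=
    Nat.pow_le_pow_right h.M0 (by have := h'.2.1; omega)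
  have h3 := h.h2
  omega

theorem GD.blk (h : GD p phi0 w a) {t : ℕ} (ht : t < (p w).B) :
    blk ((p w).M ^ (a .d + 1)) t ≤ w.length + 1 := by
  obtain ⟨D, r, h, h'⟩ := h
  have h1 : (p w).M ^ (a .d + 1) ≤ (p w).M ^ (D + 1) :=
    Nat.pow_le_pow_right h.M0 (by have := h'.2.1; omega)
  have h3 := h.h2
  have h4 : t / (p w).M ^ (a .d + 1) * (p w).M ^ (a .d + 1) ≤ t := Nat.div_mul_le_self _ _
  unfold SL.blk
  rw [add_mul, one_mul]
  omega

end

/-! ### the functions of the scheme -/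

section main

variable {p : List β → Prm} {phi0 : List β → (Fin (c + 2) → ℕ) → (Fin (c + 2) → ℕ) → RI c → ℕ}

theorem flon_B (hp : PrmFL β p) : FLon β V D (fun w _ => (p w).B) := FLon.of (param hp.B)

theorem flon_m (hp : PrmFL β p) : FLon β V D (fun w _ => (p w).m) := FLon.of (param hp.m)

theorem flon_M (hp : PrmFL β p) : FLon β V D (fun w _ => (p w).M) := FLon.of (param hp.M)

theorem flon_pow2b (hp : PrmFL β p) (h2 : ∀ w z, D w z → 2 ≤ w.length + 1)
    (hb : ∀ w z, D w z → 2 ^ (p w).b ≤ w.length + 1) :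
    FLon β V D (fun w _ => 2 ^ (p w).b) :=
  FLon.pow (FLon.const 2 h2) (FLon.of (param hp.b)) fun w z _ hD => hb w z hD

/-- `encI B f % 2 ^ b`. -/
theorem flon_enc {I : Type} [Fintype I] (hp : PrmFL β p) {a : List β → (V → ℕ) → I → ℕ}
    (ha : ∀ i, FLon β V D (fun w z => a w z i)) (h2 : ∀ w z, D w z → 2 ≤ w.length + 1)
    (hb : ∀ w z, D w z → 2 ^ (p w).b ≤ w.length + 1)
    (hB0 : ∀ w z, D w z → 0 < (p w).B)
    (hlt : ∀ w x, D w x → ∀ i, a w x i < (p w).B)
    (hc : ∀ w z, D w z → (p w).B ^ Fintype.card I ≤ w.length + 1) :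
    FLon β V D (fun w x => encI (p w).B (a w x) % 2 ^ (p w).b) :=
  (FLon.encI (flon_B hp) (a := fun i w z => a w z i) ha hB0 hlt hc).mod (flon_pow2b hp h2 hb)

theorem leafVal_on (hp : PrmFL β p)
    (hphi : ∀ q : RI c, FL β (Fin (c + 2) ⊕ Fin (c + 2))
      (fun w z => phi0 w (z ∘ Sum.inl) (z ∘ Sum.inr) q)) :
    FLon β (NI c) (GD p phi0) (fun w a => (PhiS (p w) (phi0 w)).leafVal a) := by
  have h2 : ∀ w (z : NI c → ℕ), GD p phi0 w z → 2 ≤ w.length + 1 := fun w z h => h.two
  have hb : ∀ w (z : NI c → ℕ), GD p phi0 w z → 2 ^ (p w).b ≤ w.length + 1 :=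
    fun w z h => h.pow2b
  have hB0 : ∀ w (z : NI c → ℕ), GD p phi0 w z → 0 < (p w).B := fun w z h => h.B0
  have ePop : FLon β (NI c) (GD p phi0) (fun w a =>
      encI (p w).B (nPopped fun j => a (.x j)) % 2 ^ (p w).b) :=
    flon_enc hp (a := fun _ a => nPopped (fun j : Fin (c + 2) => a (NI.x j)))
          (flon_popped (v := fun _ a (j : Fin (c + 2)) => a (NI.x j)) fun i => FLon.proj _) h2 hb hB0
          (fun w a h q => nPopped_lt h.B2 h.x q) fun w a h => h.cardRI
  have ePhi : FLon β (NI c) (GD p phi0) (fun w a =>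
      encI (p w).B (phi0 w (fun j => a (.g j)) (fun j => a (.x j))) % 2 ^ (p w).b) := by
    refine flon_enc hp (a := fun w a => phi0 w (fun j => a (NI.g j)) (fun j => a (NI.x j)))
          (fun q => ?_) h2 hb hB0 (fun w a h q => h.phi q) fun w a h => h.cardRI
    exact FLon.comp (G := fun (u : Fin (c + 2) ⊕ Fin (c + 2)) (_ : List β) (a : NI c → ℕ) =>
          a (Sum.elim NI.g NI.x u)) (hphi q) (fun u => FLon.proj _)
  have eInit : FLon β (NI c) (GD p phi0) (fun w a =>
      encI (p w).B (nInit (fun j => a (.g j)) (fun j => a (.x j)) (a .l)) % 2 ^ (p w).b) :=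
    flon_enc hp (a := fun _ a => nInit (fun j : Fin (c + 2) => a (NI.g j)) (fun j => a (NI.x j)) (a NI.l))
      (flon_init (g := fun _ a (j : Fin (c + 2)) => a (NI.g j))
        (x := fun _ a (j : Fin (c + 2)) => a (NI.x j)) (FLon.proj _)
        (fun i => FLon.proj _) (fun i => FLon.proj _)) h2 hb hB0
      (fun w a h q => nInit_lt h.B2 h.g h.x _ q) fun w a h => h.cardCI
  have e1 := FLon.ite' (IsLon.lt (FLon.proj (NI.x 1)) (FLon.proj (NI.g 1))) ePop ePhi
  have e2 := FLon.ite' (IsLon.eqConst 2 (FLon.proj (NI.tag : NI c))) eInit FLon.zero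
  have e3 := FLon.ite' (IsLon.eqConst 1 (FLon.proj (NI.tag : NI c))) e1 e2
  have e4 := FLon.ite' (IsLon.eqConst 0 (FLon.proj (NI.tag : NI c)))
    ((FLon.proj (NI.s : NI c)).mod (flon_pow2b hp h2 hb)) e3
  refine e4.congr fun w a _ _ => ?_
  unfold PhiS
  dsimp only
  by_cases h0 : a .tag = 0
  · rw [if_pos h0, if_pos h0]
  rw [if_neg h0, if_neg h0]
  by_cases h1 : a .tag = 1
  · rw [if_pos h1, if_pos h1]
    split_ifs <;> rfl
  rw [if_neg h1, if_neg h1]

theorem c1_on (hp : PrmFL β p) (u : NI c) :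
    FLon β (NI c) (GD p phi0) (fun w a => (PhiS (p w) (phi0 w)).c1 a u) := by
  have c0 : FLon β (NI c) (GD p phi0) (fun _ _ => 0) := FLon.zero
  have c2 : FLon β (NI c) (GD p phi0) (fun _ _ => 2) := FLon.const 2 fun w z h => h.two
  have c4 : FLon β (NI c) (GD p phi0) (fun _ _ => 4) := FLon.const 4 fun w z h => h.four
  have pj : ∀ v, FLon β (NI c) (GD p phi0) (fun _ a => a v) := fun v => FLon.proj v
  have hM : FLon β (NI c) (GD p phi0) (fun w _ => 4 * (p w).M + 4) :=
    FLon.add (FLon.mul c4 (flon_M hp) fun w a _ h => by have := h.fourM; omega) c4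
      fun w a _ h => h.fourM
  refine iteApp u (IsLon.eqConst 1 (pj _)) (flon_mkN c2 (pj _).pred hM c0 c0 (fun i => pj _)
    (fun i => pj _) u) ?_
  refine iteApp u (IsLon.eqConst 2 (pj _)) (flon_mkN c2 (pj _) (pj _).pred (pj _) c0
    (fun i => pj _) (fun i => pj _) u) ?_
  refine iteApp u (IsLon.eqConst 3 (pj _)) (flon_mkN c4 (pj _) (pj _) c0 c0
    (fun i => pj _) (fun i => pj _) u) ?_
  exact flon_mkN c2 (pj _) (pj _) c0 c0 (fun i => pj _) (fun i => pj _) u

theorem three_le {w : List β} {a : NI c → ℕ} (h : GD p phi0 w a) : 3 ≤ w.length + 1 := by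
  have := h.four; omega

theorem c2_on (u : NI c) :
    FLon β (NI c) (GD p phi0) (fun w a => (PhiS (p w) (phi0 w)).c2 a u) := by
  have c0 : FLon β (NI c) (GD p phi0) (fun _ _ => 0) := FLon.zero
  have c3 : FLon β (NI c) (GD p phi0) (fun _ _ => 3) := FLon.const 3 fun w z h => three_le h
  have pj : ∀ v, FLon β (NI c) (GD p phi0) (fun _ a => a v) := fun v => FLon.proj v
  exact iteApp u (IsLon.eqConst 2 (pj _)) (flon_mkN c3 (pj _) (pj _).pred c0 c0
    (fun i => pj _) (fun i => pj _) u) (flon_mkN c0 c0 c0 c0 c0 (fun i => c0) (fun i => c0) u)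

end main

end PhiFL

end Pool.Agent.Helper17.UL
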